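import Pool.Agent.Work.MP_113634_nt.Chain

/-!
# Runs of maximal growth
-/

set_option autoImplicit false

namespace Pool.Agent.Work.MP_113634_nt

open Finset

/-- the least prime `-1` modulo `q` is at most `q ^ L` -/
def LinnikNeg (L q0 : ℕ) : Prop := ∀ q, q0 ≤ q → ∃ p : ℕ, p.Prime ∧ p ≤ q ^ L ∧ q ∣ p + 1

theorem DD_le (L P K : ℕ) (M : ℕ → ℕ) (hL : 1 ≤ L) (hP : 1 ≤ P)
    (hM : ∀ j, M j ≤ P ^ ((2 * L) ^ j)) : DD M K ≤ P ^ ((4 * L) ^ K) := by
  have h1 : DD M K ≤ ∏ _j ∈ range (K + 1), P ^ ((2 * L) ^ K) := by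
    refine prod_le_prod' fun j hj => (hM j).trans ?_
    exact Nat.pow_le_pow_right hP (Nat.pow_le_pow_right (by omega)
      (by have := mem_range.1 hj; omega))
  rw [prod_const, card_range, ← pow_mul] at h1
  refine h1.trans (Nat.pow_le_pow_right hP ?_)
  have h2 : K + 1 ≤ 2 ^ K := Nat.lt_two_pow_self
  calc (2 * L) ^ K * (K + 1) ≤ (2 * L) ^ K * 2 ^ K := Nat.mul_le_mul_left _ h2
    _ = (4 * L) ^ K := by rw [← mul_pow]; congr 1; ring

/-- many integers with a given unitary divisor -/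
theorem count (D x : ℕ) (hD : 1 ≤ D) (p : ℕ → Prop) [DecidablePred p]
    (hp : ∀ n, 0 < n → UD D n → p n) :
    x / D ^ 2 ≤ ((Icc 1 x).filter p).card := by
  set J := x / D ^ 2 with hJ
  have h1 : (range J).image (fun j => D * (1 + D * j)) ⊆ (Icc 1 x).filter p := by
    intro n hn
    rw [mem_image] at hn
    obtain ⟨j, hj, rfl⟩ := hn
    have hj' := mem_range.1 hj
    have hn0 : 0 < D * (1 + D * j) := by positivity
    rw [mem_filter, mem_Icc]
    refine ⟨⟨hn0, ?_⟩, hp _ hn0 ⟨_, rfl, ?_⟩⟩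
    · have h2 : D ^ 2 * J ≤ x := Nat.mul_div_le x (D ^ 2)
      have h3 : D ^ 2 * (j + 1) ≤ D ^ 2 * J := Nat.mul_le_mul_left _ hj'
      have h4 : D ≤ D ^ 2 := Nat.le_self_pow two_ne_zero D
      calc D * (1 + D * j) = D + D ^ 2 * j := by ring
        _ ≤ D ^ 2 + D ^ 2 * j := by omega
        _ = D ^ 2 * (j + 1) := by ring
        _ ≤ x := h3.trans h2
    · rw [Nat.coprime_add_mul_left_right]
      exact Nat.coprime_one_right D
  have h2 := card_le_card h1
  rw [card_image_of_injective, card_range] at h2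
  · exact h2
  · intro i j hij
    have h3 : 1 + D * i = 1 + D * j := Nat.eq_of_mul_eq_mul_left (by omega) hij
    have h4 : D * i = D * j := by omega
    exact Nat.eq_of_mul_eq_mul_left (by omega) h4

open Classical in
theorem growth (L q0 : ℕ) (hL1 : 1 ≤ L) (hL : LinnikNeg L q0) :
    ∃ c : ℝ, 0 < c ∧ ∀ ε : ℝ, 0 < ε → ε ≤ 1 → ∃ X : ℕ, ∀ x : ℕ, X ≤ x →
      (x : ℝ) * Real.exp (-(Real.log x) ^ ε) ≤
        (((Icc 1 x).filter fun n => ∀ i : ℕ, (i : ℝ) ≤ c * ε * Real.log (Real.log x) →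
          c * ε * Real.log (Real.log x) * (sstar^[i] n : ℕ) ≤ (sstar^[i + 1] n : ℕ)).card : ℝ) := by
  set B : ℝ := 4 * L with hB
  have hLr : (1 : ℝ) ≤ L := by exact_mod_cast hL1
  have hB4 : 4 ≤ B := by linarith
  have hlogB : 1 ≤ Real.log B := by
    have h1 : Real.exp 1 ≤ B := (Real.exp_one_lt_d9.le.trans (by norm_num)).trans hB4
    calc (1 : ℝ) = Real.log (Real.exp 1) := (Real.log_exp 1).symm
      _ ≤ Real.log B := Real.log_le_log (Real.exp_pos 1) h1
  refine ⟨1 / (32 * Real.log B), by positivity, fun ε hε hε1 => ?_⟩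
  -- conditions for large x
  have hl : Filter.Tendsto (fun x : ℕ => Real.log x) Filter.atTop Filter.atTop :=
    Real.tendsto_log_atTop.comp tendsto_natCast_atTop_atTop
  have hll : Filter.Tendsto (fun x : ℕ => Real.log (Real.log x)) Filter.atTop Filter.atTop :=
    Real.tendsto_log_atTop.comp hl
  have hle : ∀ a : ℝ, 0 < a → Filter.Tendsto (fun x : ℕ => (Real.log x) ^ a) Filter.atTop
      Filter.atTop := fun a ha => (tendsto_rpow_atTop ha).comp hl
  have hev := (hl.eventually_ge_atTop 1).and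
    ((hll.eventually_ge_atTop (64 / ε)).and
    (((hle (ε / 4) (by positivity)).eventually_ge_atTop ((q0 : ℝ) + 4)).and
    (((hle (ε / 2) (by positivity)).eventually_ge_atTop 8).and
    ((hle (1 / 2) (by norm_num)).eventually_ge_atTop 8))))
  obtain ⟨X, hX⟩ := Filter.eventually_atTop.1 hev
  refine ⟨X + 1, fun x hx => ?_⟩
  obtain ⟨a1, a3, a4, a5, a6⟩ := hX x (by omega)
  set l := Real.log x with hldef
  set ll := Real.log l with hlldef
  have hx0 : (0 : ℝ) < x := by exact_mod_cast (by omega : 0 < x)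
  have hl0 : 0 < l := by linarith
  have hll0 : 0 < ll := lt_of_lt_of_le (by positivity) a3
  have hεll : 64 ≤ ε * ll := by
    rw [div_le_iff₀ hε] at a3
    linarith
  -- the parameters
  set y := ⌊l ^ (ε / 4)⌋₊ with hy
  set K := ⌊ε * ll / (4 * Real.log B)⌋₊ with hK
  have hy1 : (y : ℝ) ≤ l ^ (ε / 4) := Nat.floor_le (by positivity)
  have hy2 : l ^ (ε / 4) < y + 1 := Nat.lt_floor_add_one _
  have hyq : q0 + 3 ≤ y := by
    have : ((q0 + 3 : ℕ) : ℝ) < y + 1 := by push_cast; linarith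
    have h2 : q0 + 3 < y + 1 := by exact_mod_cast this
    omega
  have hBK : B ^ K ≤ l ^ (ε / 4) := by
    have h1 : (K : ℝ) ≤ ε * ll / (4 * Real.log B) := Nat.floor_le (by positivity)
    rw [← Real.exp_log (by linarith : 0 < B), ← Real.exp_nat_mul, Real.rpow_def_of_pos hl0]
    apply Real.exp_le_exp.2
    have h2 : (K : ℝ) * Real.log B ≤ ε * ll / (4 * Real.log B) * Real.log B :=
      mul_le_mul_of_nonneg_right h1 (by linarith)
    have h3 : ε * ll / (4 * Real.log B) * Real.log B = ll * (ε / 4) := by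
      field_simp
    rw [h3] at h2
    exact h2
  set P := primorial y with hP
  have hyP : y ≤ P := le_primorial_self
  obtain ⟨M, hM, hM0, hMle⟩ := exists_chain L q0 hL P (by omega) (by omega)
  set D := DD M K with hD
  have hD1 : 1 ≤ D := by
    rw [hD]
    unfold DD
    exact Nat.one_le_iff_ne_zero.2 (prod_ne_zero_iff.2 fun j _ => by
      have := hM.two j; omega)
  have hDr : (D : ℝ) ≤ Real.exp (2 * l ^ (ε / 2)) := by
    have h1 : D ≤ P ^ ((4 * L) ^ K) := DD_le L P K M hL1 (by omega) hMle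
    have h2 : P ^ ((4 * L) ^ K) ≤ (4 ^ y) ^ ((4 * L) ^ K) :=
      Nat.pow_le_pow_left (primorial_le_four_pow y) _
    have h3 : (D : ℝ) ≤ (4 : ℝ) ^ (y * (4 * L) ^ K) := by
      rw [pow_mul]
      exact_mod_cast h1.trans h2
    have h4 : (y : ℝ) * B ^ K ≤ l ^ (ε / 2) := by
      calc (y : ℝ) * B ^ K ≤ l ^ (ε / 4) * l ^ (ε / 4) :=
            mul_le_mul hy1 hBK (by positivity) (by positivity)
        _ = l ^ (ε / 2) := by rw [← Real.rpow_add hl0]; congr 1; ring
    have h5 : Real.log 4 ≤ 2 := by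
      have : Real.log 4 = 2 * Real.log 2 := by
        rw [show (4 : ℝ) = 2 ^ 2 by norm_num, Real.log_pow]; norm_num
      linarith [Real.log_two_lt_d9]
    have h6 : (4 : ℝ) ^ (y * (4 * L) ^ K) = Real.exp ((y * B ^ K) * Real.log 4) := by
      have : ((y * (4 * L) ^ K : ℕ) : ℝ) = y * B ^ K := by
        rw [hB]; push_cast; ring
      rw [← this, Real.exp_nat_mul, Real.exp_log (by norm_num)]
    rw [h6] at h3
    refine h3.trans (Real.exp_le_exp.2 ?_)
    have h7 : 0 ≤ (y : ℝ) * B ^ K := by positivity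
    calc (y * B ^ K) * Real.log 4 ≤ (y * B ^ K) * 2 := mul_le_mul_of_nonneg_left h5 h7
      _ ≤ l ^ (ε / 2) * 2 := mul_le_mul_of_nonneg_right h4 (by norm_num)
      _ = 2 * l ^ (ε / 2) := by ring
  -- growth factor
  have hfac : 1 / (32 * Real.log B) * ε * ll ≤ (usum (M 0) : ℝ) / M 0 - 1 := by
    rw [hM0]
    have h1 := usum_primorial y (by omega)
    have h2 : ε / 8 * ll ≤ Real.log y := by
      have h3 : l ^ (ε / 8) ≤ y := by
        have h4 : l ^ (ε / 4) = l ^ (ε / 8) * l ^ (ε / 8) := by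
          rw [← Real.rpow_add hl0]; congr 1; ring
        have h5 : 2 ≤ l ^ (ε / 8) := by
          have h6 : Real.exp (ll * (ε / 8)) = l ^ (ε / 8) := by
            rw [Real.rpow_def_of_pos hl0]
          rw [← h6]
          have := Real.add_one_le_exp (ll * (ε / 8))
          linarith
        nlinarith
      have h4 := Real.log_le_log (by positivity) h3
      rw [Real.log_rpow hl0] at h4
      exact h4
    have h3 : 1 / (32 * Real.log B) * ε * ll ≤ 1 / 32 * (ε * ll) := by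
      have h4 : 1 / (32 * Real.log B) ≤ 1 / 32 := by
        apply one_div_le_one_div_of_le (by norm_num)
        linarith
      have h5 : 0 ≤ ε * ll := by positivity
      nlinarith
    linarith
  -- the count
  have hcount := count D x hD1 (fun n => ∀ i : ℕ, (i : ℝ) ≤ 1 / (32 * Real.log B) * ε * ll →
      1 / (32 * Real.log B) * ε * ll * (sstar^[i] n : ℕ) ≤ (sstar^[i + 1] n : ℕ)) (by
    intro n hn hU i hi
    have hiK : i ≤ K := by
      apply Nat.le_floor
      refine hi.trans ?_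
      rw [div_mul_eq_mul_div, one_mul, div_mul_eq_mul_div]
      have h1 : 0 ≤ ε * ll := by positivity
      exact div_le_div_of_nonneg_left h1 (by positivity) (by nlinarith)
    have h1 := chain_growth hM K n hn hU i hiK
    refine le_trans ?_ h1
    exact mul_le_mul_of_nonneg_right hfac (Nat.cast_nonneg _))
  refine le_trans ?_ (Nat.cast_le.2 hcount)
  have h1 : (x : ℝ) / (D : ℝ) ^ 2 - 1 ≤ ((x / D ^ 2 : ℕ) : ℝ) := by
    have h2 := Nat.lt_div_mul_add (a := x) (b := D ^ 2) (by positivity)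
    have hD2 : (0 : ℝ) < (D : ℝ) ^ 2 := by positivity
    have h3 : (x : ℝ) < ((x / D ^ 2 : ℕ) : ℝ) * (D : ℝ) ^ 2 + (D : ℝ) ^ 2 := by
      exact_mod_cast h2
    rw [sub_le_iff_le_add, div_le_iff₀ hD2]
    linarith
  refine le_trans ?_ h1
  have h2 : (x : ℝ) * Real.exp (-(4 * l ^ (ε / 2))) ≤ (x : ℝ) / (D : ℝ) ^ 2 := by
    rw [le_div_iff₀ (by positivity)]
    have h3 : (D : ℝ) ^ 2 ≤ Real.exp (4 * l ^ (ε / 2)) := by
      calc (D : ℝ) ^ 2 ≤ (Real.exp (2 * l ^ (ε / 2))) ^ 2 := by gcongr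
        _ = Real.exp (4 * l ^ (ε / 2)) := by
            rw [← Real.exp_nat_mul]; congr 1; push_cast; ring
    calc (x : ℝ) * Real.exp (-(4 * l ^ (ε / 2))) * (D : ℝ) ^ 2
        ≤ (x : ℝ) * Real.exp (-(4 * l ^ (ε / 2))) * Real.exp (4 * l ^ (ε / 2)) := by gcongr
      _ = x := by rw [mul_assoc, ← Real.exp_add]; simp
  set E := Real.exp (-(4 * l ^ (ε / 2))) with hE
  have hE0 : 0 < E := Real.exp_pos _
  have h3 : Real.exp (-l ^ ε) ≤ E / 2 := by
    have h4 : l ^ ε = l ^ (ε / 2) * l ^ (ε / 2) := by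
      rw [← Real.rpow_add hl0]; congr 1; ring
    have h5 : 4 * l ^ (ε / 2) + 1 ≤ l ^ ε := by rw [h4]; nlinarith
    have h6 : Real.exp (-l ^ ε) ≤ E * Real.exp (-1) := by
      rw [hE, ← Real.exp_add]
      apply Real.exp_le_exp.2
      linarith
    have h7 : Real.exp (-1) ≤ 1 / 2 := by
      rw [Real.exp_neg, ← one_div]
      apply one_div_le_one_div_of_le (by norm_num)
      have := Real.add_one_le_exp (1 : ℝ)
      linarith
    calc Real.exp (-l ^ ε) ≤ E * Real.exp (-1) := h6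
      _ ≤ E * (1 / 2) := mul_le_mul_of_nonneg_left h7 hE0.le
      _ = E / 2 := by ring
  have h4 : 2 ≤ (x : ℝ) * E := by
    have h5 : (x : ℝ) = Real.exp l := (Real.exp_log hx0).symm
    rw [h5, hE, ← Real.exp_add]
    have h6 : l ^ (ε / 2) ≤ l ^ (1 / 2 : ℝ) :=
      Real.rpow_le_rpow_of_exponent_le a1 (by linarith)
    have h7 : l = l ^ (1 / 2 : ℝ) * l ^ (1 / 2 : ℝ) := by
      rw [← Real.rpow_add hl0]; norm_num
    have h8 : 1 ≤ l + -(4 * l ^ (ε / 2)) := by nlinarith
    have h9 := Real.add_one_le_exp (l + -(4 * l ^ (ε / 2)))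
    linarith
  have h5 : (x : ℝ) * Real.exp (-l ^ ε) ≤ x * (E / 2) := mul_le_mul_of_nonneg_left h3 hx0.le
  have h6 : (x : ℝ) * (E / 2) = x * E / 2 := by ring
  rw [h6] at h5
  linarith

end Pool.Agent.Work.MP_113634_nt
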