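import Pool.Agent.Work.MP_2738db_nt_Z_helper49.SUP

/-!
# Linnik's theorem on the least prime in an arithmetic progression
-/

set_option autoImplicit false

namespace Pool.Agent.Work.MP_113634_nt

open Finset ArithmeticFunction
open Pool.Agent.PS
open Pool.Agent.Work.MP_2738db_nt_Z.helper49
open scoped Classical

/-- the contribution of a list of zeros -/
noncomputable def ZT (Z : ℕ) (Y : ℝ) (ρ : ℂ) : ℂ :=
  Complex.exp (ρ ^ 2 / (2 * Z)) * (((Y : ℂ) ^ ρ - (((1 : ℝ) : ℂ)) ^ ρ) / ρ)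

/-- orthogonality -/
theorem psi_ap' (d : ℕ) (hd : 0 < d) (a : ZMod d) (ha : IsUnit a) (I : Finset ℕ) :
    ∑ χ : DirichletCharacter ℂ d, χ a⁻¹ * ∑ n ∈ I, (Λ n : ℂ) * χ (n : ZMod d)
      = (d.totient : ℂ) * ∑ n ∈ I.filter (fun n : ℕ => (n : ZMod d) = a), (Λ n : ℂ) := by
  have : NeZero d := ⟨hd.ne'⟩
  simp_rw [mul_sum]
  rw [sum_comm, sum_filter]
  refine sum_congr rfl fun n _ => ?_
  have h1 : ∀ χ : DirichletCharacter ℂ d, χ a⁻¹ * ((Λ n : ℂ) * χ (n : ZMod d))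
      = (Λ n : ℂ) * (χ a⁻¹ * χ (n : ZMod d)) := fun χ => by ring
  simp_rw [h1]
  rw [← mul_sum, DirichletCharacter.sum_char_inv_mul_char_eq ℂ ha (n : ZMod d)]
  by_cases h : (n : ZMod d) = a
  · rw [if_pos h.symm, if_pos h, mul_comm]
  · rw [if_neg (fun h3 => h h3.symm), if_neg h, mul_zero]

theorem pr_ne_one (d : ℕ) (hd : 0 < d) (χ : DirichletCharacter ℂ d) (hχ : χ ≠ 1) :
    (pr χ).2 ≠ 1 := by
  have : NeZero d := ⟨hd.ne'⟩
  intro h
  apply hχ
  rw [DirichletCharacter.eq_one_iff_conductor_eq_one]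
  have : NeZero χ.conductor := ⟨χ.conductor_ne_zero⟩
  have h1 : χ.primitiveCharacter.conductor = χ.conductor := χ.primitiveCharacter_isPrimitive
  have h2 : χ.primitiveCharacter = 1 := h
  rw [← h1, h2]
  exact DirichletCharacter.conductor_one

theorem core' {Z : ℕ} (d : ℕ) (hd : 0 < d) (hdZ : d ≤ Z) (a : ZMod d)
    (ha : IsUnit a) (Y : ℝ) (hY : 1 ≤ Y) (E : ℝ)
    (hEF : ∀ x ∈ Fam Z,
      ‖∑ n ∈ Ioc ⌊(1 : ℝ)⌋₊ ⌊Y⌋₊, (Λ n : ℂ) * x.2 (n : ZMod x.1)
          - (if x.2 = 1 then ((Y - 1 : ℝ) : ℂ) else 0)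
          + ((zl x Z).map (ZT Z Y)).sum‖ ≤ E)
    (W : ℝ) (hW : ∑ x ∈ Fam Z, ‖((zl x Z).map (ZT Z Y)).sum‖ ≤ W) :
    Y - 1 - W - d.totient * (E + Real.log d * Real.log ⌊Y⌋₊ / Real.log 2)
      ≤ d.totient * ∑ n ∈ (Ioc 1 ⌊Y⌋₊).filter (fun n : ℕ => (n : ZMod d) = a), Λ n := by
  have : NeZero d := ⟨hd.ne'⟩
  set N := ⌊Y⌋₊ with hN
  set B := Real.log d * Real.log N / Real.log 2 with hB
  have h1 := congrArg Complex.re (psi_ap' d hd a ha (Ioc 1 N))
  have h2 : ((d.totient : ℂ) * ∑ n ∈ (Ioc 1 N).filter (fun n : ℕ => (n : ZMod d) = a), (Λ n : ℂ)).re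
      = d.totient * ∑ n ∈ (Ioc 1 N).filter (fun n : ℕ => (n : ZMod d) = a), Λ n := by
    rw [← Complex.ofReal_sum, ← Complex.ofReal_natCast, ← Complex.ofReal_mul, Complex.ofReal_re]
  rw [h2, Complex.re_sum] at h1
  rw [← h1]
  have h3 : ∀ χ : DirichletCharacter ℂ d,
      (if χ = 1 then Y - 1 else 0) - ‖((zl (pr χ) Z).map (ZT Z Y)).sum‖ - (E + B)
        ≤ (χ a⁻¹ * ∑ n ∈ Ioc 1 N, (Λ n : ℂ) * χ (n : ZMod d)).re := by
    intro χ
    have hx : pr χ ∈ Fam Z := pr_mem hd hdZ χ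
    have e1 := hEF (pr χ) hx
    rw [Nat.floor_one] at e1
    have e2 := chi_pr d N hd χ
    set S := ∑ n ∈ Ioc 1 N, (Λ n : ℂ) * χ (n : ZMod d)
    set S' := ∑ n ∈ Ioc 1 N, (Λ n : ℂ) * (pr χ).2 (n : ZMod (pr χ).1)
    set U := ((zl (pr χ) Z).map (ZT Z Y)).sum
    set M : ℂ := if (pr χ).2 = 1 then ((Y - 1 : ℝ) : ℂ) else 0 with hM
    have hu : ‖χ a⁻¹‖ ≤ 1 := DirichletCharacter.norm_le_one _ _
    have e3 : χ a⁻¹ * S = χ a⁻¹ * M + (χ a⁻¹ * ((S - S') + (S' - M + U)) - χ a⁻¹ * U) := by ring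
    have e4 : ‖χ a⁻¹ * ((S - S') + (S' - M + U)) - χ a⁻¹ * U‖ ≤ (E + B) + ‖U‖ := by
      refine (norm_sub_le _ _).trans ?_
      rw [norm_mul, norm_mul]
      have e5 : ‖(S - S') + (S' - M + U)‖ ≤ B + E := (norm_add_le _ _).trans (add_le_add e2 e1)
      have e6 : ‖χ a⁻¹‖ * ‖(S - S') + (S' - M + U)‖ ≤ 1 * (B + E) :=
        mul_le_mul hu e5 (norm_nonneg _) zero_le_one
      have e7 : ‖χ a⁻¹‖ * ‖U‖ ≤ 1 * ‖U‖ := mul_le_mul_of_nonneg_right hu (norm_nonneg _)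
      linarith
    have e5 := (abs_le.1 ((Complex.abs_re_le_norm _).trans e4)).1
    have e6 : (χ a⁻¹ * M).re = if χ = 1 then Y - 1 else 0 := by
      by_cases hc : χ = 1
      · subst hc
        have hau : IsUnit (a⁻¹) := by
          obtain ⟨u, rfl⟩ := ha
          rw [ZMod.inv_coe_unit]
          exact Units.isUnit _
        rw [if_pos rfl, hM, if_pos (pr_one_eq d hd), MulChar.one_apply hau, one_mul,
          Complex.ofReal_re]
      · rw [if_neg hc, hM, if_neg (pr_ne_one d hd χ hc), mul_zero, Complex.zero_re]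
    rw [e3, Complex.add_re, e6]
    linarith
  have h4 := sum_le_sum (s := (univ : Finset (DirichletCharacter ℂ d))) fun χ _ => h3 χ
  refine le_trans ?_ h4
  rw [sum_sub_distrib, sum_sub_distrib, sum_const, card_univ, Fintype.card_eq_nat_card,
    DirichletCharacter.card_eq_totient_of_hasEnoughRootsOfUnity ℂ d, nsmul_eq_mul,
    sum_ite_eq' univ (1 : DirichletCharacter ℂ d), if_pos (mem_univ _)]
  have h5 := (sum_pr_le hd hdZ (fun x => ‖((zl x Z).map (ZT Z Y)).sum‖)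
    (fun x => norm_nonneg _)).trans hW
  linarith

/-- from `Λ` to primes -/
theorem exists_prime (d : ℕ) (a : ZMod d) (t : ℝ) (ht : 1 ≤ t)
    (h : 2 * Real.exp (t / 2) * t
      < ∑ n ∈ (Ioc 1 ⌊Real.exp t⌋₊).filter (fun n : ℕ => (n : ZMod d) = a), Λ n) :
    ∃ p : ℕ, p.Prime ∧ (p : ℝ) ≤ Real.exp t ∧ (p : ZMod d) = a := by
  by_contra hc
  push Not at hc
  set N := ⌊Real.exp t⌋₊ with hN
  have hY : 1 ≤ Real.exp t := Real.one_le_exp (by linarith)
  have hN1 : 1 ≤ N := Nat.le_floor (by simpa using hY)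
  have hNY : (N : ℝ) ≤ Real.exp t := Nat.floor_le (by linarith)
  have hNr : (1 : ℝ) ≤ N := by exact_mod_cast hN1
  have hlog : Real.log N ≤ t := by
    rw [← Real.log_exp t]
    exact Real.log_le_log (by linarith) hNY
  have hlog0 : 0 ≤ Real.log N := Real.log_nonneg hNr
  have h1 : ∑ n ∈ (Ioc 1 N).filter (fun n : ℕ => (n : ZMod d) = a), Λ n
      ≤ ∑ b ∈ (Ioc 0 N).filter (fun b => ¬ b.Prime), Λ b := by
    refine sum_le_sum_of_subset_of_nonneg ?_ fun n _ _ => vonMangoldt_nonneg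
    intro n hn
    rw [mem_filter, mem_Ioc] at hn
    rw [mem_filter, mem_Ioc]
    refine ⟨⟨by omega, hn.1.2⟩, fun hp => ?_⟩
    refine hc n hp ?_ hn.2
    exact (Nat.cast_le.2 hn.1.2).trans hNY
  have h2 := nonprime_sum N hN1
  have h3 : 2 * √(N : ℝ) * Real.log N ≤ 2 * Real.exp (t / 2) * t := by
    have h4 : √(N : ℝ) ≤ Real.exp (t / 2) := by
      rw [Real.exp_half]
      exact Real.sqrt_le_sqrt hNY
    have h5 : 0 ≤ Real.exp (t / 2) := (Real.exp_pos _).le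
    gcongr
  linarith

/-- the exceptional zero -/
theorem exc_term (Z : ℕ) (Y δ : ℝ) (hZ : 1 ≤ Z) (hY : 1 ≤ Y) (hδ : 0 < δ) (hδ' : δ ≤ 1 / 2) :
    ‖ZT Z Y ((1 - δ : ℝ) : ℂ)‖
      ≤ Y * Real.exp (1 / (2 * Z) + 2 * δ - δ * Real.log Y) := by
  have hY0 : 0 < Y := by linarith
  have hZr : (1 : ℝ) ≤ Z := by exact_mod_cast hZ
  unfold ZT
  rw [norm_mul, norm_div, Complex.norm_exp]
  have e1 : ((((1 - δ : ℝ) : ℂ)) ^ 2 / (2 * (Z : ℂ))).re = (1 - δ) ^ 2 / (2 * Z) := by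
    have : (((1 - δ : ℝ) : ℂ)) ^ 2 / (2 * (Z : ℂ)) = (((1 - δ) ^ 2 / (2 * Z) : ℝ) : ℂ) := by
      push_cast; ring
    rw [this, Complex.ofReal_re]
  rw [e1]
  have e2 : Real.exp ((1 - δ) ^ 2 / (2 * Z)) ≤ Real.exp (1 / (2 * Z)) := by
    apply Real.exp_le_exp.2
    apply div_le_div_of_nonneg_right _ (by positivity)
    nlinarith
  have e3 : ‖(Y : ℂ) ^ ((1 - δ : ℝ) : ℂ) - (((1 : ℝ) : ℂ)) ^ ((1 - δ : ℝ) : ℂ)‖
      ≤ Y * Real.exp (-(δ * Real.log Y)) := by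
    rw [Complex.ofReal_one, Complex.one_cpow, ← Complex.ofReal_cpow hY0.le,
      ← Complex.ofReal_one, ← Complex.ofReal_sub, Complex.norm_real, Real.norm_eq_abs]
    have e4 : 1 ≤ Y ^ (1 - δ) := Real.one_le_rpow hY (by linarith)
    rw [abs_of_nonneg (by linarith)]
    have e5 : Y ^ (1 - δ) = Y * Real.exp (-(δ * Real.log Y)) := by
      rw [Real.rpow_def_of_pos hY0]
      have : Real.log Y * (1 - δ) = Real.log Y + -(δ * Real.log Y) := by ring
      rw [this, Real.exp_add, Real.exp_log hY0]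
    linarith
  have e4 : ‖((1 - δ : ℝ) : ℂ)‖ = 1 - δ := by
    rw [Complex.norm_real, Real.norm_eq_abs, abs_of_nonneg (by linarith)]
  rw [e4]
  have e5 : Y * Real.exp (-(δ * Real.log Y)) / (1 - δ)
      ≤ Y * Real.exp (-(δ * Real.log Y)) * Real.exp (2 * δ) := by
    rw [div_le_iff₀ (by linarith)]
    have e6 : 1 ≤ Real.exp (2 * δ) * (1 - δ) := by
      have e7 := Real.add_one_le_exp (2 * δ)
      nlinarith
    have e8 : 0 ≤ Y * Real.exp (-(δ * Real.log Y)) := by positivity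
    calc Y * Real.exp (-(δ * Real.log Y))
        = Y * Real.exp (-(δ * Real.log Y)) * 1 := by ring
      _ ≤ Y * Real.exp (-(δ * Real.log Y)) * (Real.exp (2 * δ) * (1 - δ)) :=
          mul_le_mul_of_nonneg_left e6 e8
      _ = _ := by ring
  have e6 : ‖(Y : ℂ) ^ ((1 - δ : ℝ) : ℂ) - (((1 : ℝ) : ℂ)) ^ ((1 - δ : ℝ) : ℂ)‖ / (1 - δ)
      ≤ Y * Real.exp (-(δ * Real.log Y)) * Real.exp (2 * δ) :=
    (div_le_div_of_nonneg_right e3 (by linarith)).trans e5
  calc _ ≤ Real.exp (1 / (2 * Z)) * (Y * Real.exp (-(δ * Real.log Y)) * Real.exp (2 * δ)) :=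
        mul_le_mul e2 e6 (div_nonneg (norm_nonneg _) (by linarith)) (Real.exp_pos _).le
    _ = Y * Real.exp (1 / (2 * Z) + 2 * δ - δ * Real.log Y) := by
        have : 1 / (2 * (Z : ℝ)) + 2 * δ - δ * Real.log Y
            = 1 / (2 * Z) + (-(δ * Real.log Y) + 2 * δ) := by ring
        rw [this, Real.exp_add, Real.exp_add]
        ring

/-- the sum over the zeros in the exceptional case -/
theorem exc_sum (Z : ℕ) (Y δ : ℝ) (y : Ch) (hZ : 1 ≤ Z) (hY : 1 ≤ Y) (hδ : 0 < δ)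
    (hδ' : δ ≤ 1 / 2) (hy : y ∈ Fam Z) :
    ∑ x ∈ Fam Z, ‖((zl x Z).map (ZT Z Y)).sum‖
      ≤ 5 * Y * ∑ x ∈ Fam Z, zs (zx Z y δ x) Y
        + Y * Real.exp (1 / (2 * Z) + 2 * δ - δ * Real.log Y) := by
  have hZr : (1 : ℝ) ≤ Z := by exact_mod_cast hZ
  have hP : 0 ≤ Y * Real.exp (1 / (2 * Z) + 2 * δ - δ * Real.log Y) := by positivity
  have hsub : ∀ x ∈ Fam Z, ∀ ρ ∈ zl x Z, 9 / 10 ≤ ρ.re ∧ ρ.re ≤ 1 := by
    intro x hx ρ hρ
    have h := (stmt_ZSPEC Z x (Fam_pos hx).1.ne').2.2 ρ hρ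
    exact ⟨h.2.1, h.2.2.1.le⟩
  have h1 : ∀ x ∈ Fam Z, ‖((zl x Z).map (ZT Z Y)).sum‖ ≤ 5 * Y * zs (zx Z y δ x) Y
      + (if x = y then Y * Real.exp (1 / (2 * Z) + 2 * δ - δ * Real.log Y) else 0) := by
    intro x hx
    by_cases hxy : x = y
    · subst hxy
      rw [if_pos rfl]
      unfold zx
      rw [if_pos rfl]
      by_cases hm : ((1 - δ : ℝ) : ℂ) ∈ zl x Z
      · have hp := List.perm_cons_erase hm
        have e1 : ((zl x Z).map (ZT Z Y)).sum = ZT Z Y ((1 - δ : ℝ) : ℂ)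
            + (((zl x Z).erase ((1 - δ : ℝ) : ℂ)).map (ZT Z Y)).sum := by
          rw [(hp.map (ZT Z Y)).sum_eq, List.map_cons, List.sum_cons]
        rw [e1]
        refine (norm_add_le _ _).trans ?_
        have e2 := exc_term Z Y δ hZ hY hδ hδ'
        have e3 := zsum ((zl x Z).erase ((1 - δ : ℝ) : ℂ))
          (fun ρ hρ => hsub x hx ρ (List.mem_of_mem_erase hρ)) Z Y hZr hY
        have e4 : ‖(((zl x Z).erase ((1 - δ : ℝ) : ℂ)).map (ZT Z Y)).sum‖
            ≤ 5 * Y * zs ((zl x Z).erase ((1 - δ : ℝ) : ℂ)) Y := e3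
        linarith
      · rw [List.erase_of_not_mem hm]
        have e3 : ‖((zl x Z).map (ZT Z Y)).sum‖ ≤ 5 * Y * zs (zl x Z) Y :=
          zsum (zl x Z) (hsub x hx) Z Y hZr hY
        linarith
    · rw [if_neg hxy, add_zero]
      unfold zx
      rw [if_neg hxy]
      exact zsum (zl x Z) (hsub x hx) Z Y hZr hY
  refine (sum_le_sum h1).trans ?_
  rw [sum_add_distrib, ← mul_sum, sum_ite_eq' (Fam Z) y, if_pos hy]

theorem exp_bound (u m : ℝ) (h0 : 0 ≤ m) (h1 : m ≤ 1) (hu : 99 / 100 * m ≤ u) :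
    Real.exp (-u) ≤ 1 - 49 / 100 * m := by
  have h2 : Real.exp (-u) ≤ Real.exp (-(99 / 100 * m)) := Real.exp_le_exp.2 (by linarith)
  have h3 : Real.exp (-(99 / 100 * m)) ≤ 1 / (1 + 99 / 100 * m) := by
    rw [Real.exp_neg, ← one_div]
    apply one_div_le_one_div_of_le (by positivity)
    have := Real.add_one_le_exp (99 / 100 * m)
    linarith
  have h4 : 1 / (1 + 99 / 100 * m) ≤ 1 - 49 / 100 * m := by
    rw [div_le_iff₀ (by positivity)]
    nlinarith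
  linarith

theorem large' (κ C c : ℝ) (M : ℕ) (hκ : 0 < κ) (hc : 0 < c) : ∃ T : ℝ, ∀ t : ℝ, T ≤ t →
    300 ≤ t ∧ 16 / κ ^ 2 ≤ t ∧ (M : ℝ) ≤ Real.exp (κ * t) ∧ 4 ≤ κ * t ∧
    C * Real.exp (-(κ / 48 * t)) ≤ c ∧ C * Real.exp (-(1 / 40 * t)) ≤ c ∧
    t ^ 2 * Real.exp (-(1 / 2 * t)) ≤ c ∧ 2 * t * Real.exp (-(1 / 4 * t)) ≤ c ∧
    Real.exp (-(1 / 2 * t)) ≤ c ∧ Real.exp (-(κ / 2 * t)) ≤ c := by
  have hexp : ∀ K a : ℝ, 0 < a → ∀ᶠ t : ℝ in Filter.atTop, K * Real.exp (-(a * t)) ≤ c := by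
    intro K a ha
    have h1 : Filter.Tendsto (fun t : ℝ => K * Real.exp (-(a * t))) Filter.atTop (nhds (K * 0)) :=
      (Real.tendsto_exp_neg_atTop_nhds_zero.comp
        (Filter.tendsto_id.const_mul_atTop ha)).const_mul K
    rw [mul_zero] at h1
    exact (h1.eventually (gt_mem_nhds hc)).mono fun t h => h.le
  have hpow : ∀ (k : ℕ) (K a : ℝ), 0 < a → ∀ᶠ t : ℝ in Filter.atTop,
      K * ((a * t) ^ k * Real.exp (-(a * t))) ≤ c := by
    intro k K a ha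
    have h3 := ((Real.tendsto_pow_mul_exp_neg_atTop_nhds_zero k).comp
      (Filter.tendsto_id.const_mul_atTop ha)).const_mul K
    rw [mul_zero] at h3
    exact (h3.eventually (gt_mem_nhds hc)).mono fun t h => h.le
  have h3 : ∀ a K : ℝ, 0 < a → ∀ᶠ t : ℝ in Filter.atTop, K ≤ a * t := fun a K ha =>
    (Filter.tendsto_id.const_mul_atTop ha).eventually_ge_atTop K
  have h4 : ∀ᶠ t : ℝ in Filter.atTop, (M : ℝ) ≤ Real.exp (κ * t) :=
    (Real.tendsto_exp_atTop.comp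
      (Filter.tendsto_id.const_mul_atTop hκ)).eventually_ge_atTop (M : ℝ)
  have h5 := (Filter.eventually_ge_atTop (300 : ℝ)).and
    ((Filter.eventually_ge_atTop (16 / κ ^ 2)).and (h4.and ((h3 κ 4 hκ).and
    ((hexp C (κ / 48) (by positivity)).and ((hexp C (1 / 40) (by norm_num)).and
    ((hpow 2 4 (1 / 2) (by norm_num)).and ((hpow 1 8 (1 / 4) (by norm_num)).and
    ((hexp 1 (1 / 2) (by norm_num)).and (hexp 1 (κ / 2) (by positivity))))))))))
  obtain ⟨T, hT⟩ := Filter.eventually_atTop.1 h5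
  refine ⟨T, fun t ht => ?_⟩
  obtain ⟨a1, a2, a3, a4, a5, a6, a7, a8, a9, a10⟩ := hT t ht
  refine ⟨a1, a2, a3, a4, a5, a6, ?_, ?_, ?_, ?_⟩
  · calc _ = 4 * ((1 / 2 * t) ^ 2 * Real.exp (-(1 / 2 * t))) := by ring
      _ ≤ c := a7
  · calc _ = 8 * ((1 / 4 * t) ^ 1 * Real.exp (-(1 / 4 * t))) := by ring
      _ ≤ c := a8
  · rwa [one_mul] at a9
  · rwa [one_mul] at a10

/-- the numbers -/
theorem num' (κ C c t : ℝ) (Z d : ℕ) (hκ : 0 < κ) (hκ' : κ ≤ 1 / 300) (hC : 0 ≤ C) (hc : 0 < c)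
    (ht : 1 ≤ t)
    (h1 : C * Real.exp (-(κ / 48 * t)) ≤ c / 100) (h2 : C * Real.exp (-(1 / 40 * t)) ≤ c / 100)
    (h3 : t ^ 2 * Real.exp (-(1 / 2 * t)) ≤ c / 100)
    (h4 : 2 * t * Real.exp (-(1 / 4 * t)) ≤ c / 100)
    (h5 : Real.exp (-(1 / 2 * t)) ≤ c / 100) (hd : 1 ≤ d)
    (hdt : (d : ℝ) ≤ Real.exp (κ / 8 * t)) (hZ1 : (Z : ℝ) ≤ Real.exp (κ * t)) (hZ0 : 1 ≤ Z)
    (hZ : κ * t / 2 ≤ Real.log Z) :
    1 + d.totient *
      (C * (Real.exp t * (Z : ℝ) ^ (-(1 / 3) : ℝ) + (Z : ℝ) ^ 5 * (Real.exp t) ^ (19 / 20 : ℝ))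
        + Real.log d * Real.log ⌊Real.exp t⌋₊ / Real.log 2 + 2 * Real.exp (t / 2) * t)
      ≤ 5 / 100 * (c * Real.exp (-(κ / 48 * t)) * Real.exp t) := by
  have hφ : (d.totient : ℝ) ≤ Real.exp (κ / 8 * t) :=
    (Nat.cast_le.2 (Nat.totient_le d)).trans hdt
  have hφ0 : (0 : ℝ) ≤ d.totient := Nat.cast_nonneg _
  have hZr : (1 : ℝ) ≤ Z := by exact_mod_cast hZ0
  have hZpos : (0 : ℝ) < Z := by linarith
  have hκt : κ * t ≤ 1 / 300 * t := by nlinarith
  have hκ0 : 0 ≤ κ * t := by positivity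
  have key : ∀ u v w : ℝ, u ≤ v + w → Real.exp u ≤ Real.exp v * Real.exp w := fun u v w h => by
    rw [← Real.exp_add]
    exact Real.exp_le_exp.2 h
  set R := c * Real.exp (-(κ / 48 * t)) * Real.exp t with hR
  -- first error term
  have a1 : d.totient * (C * (Real.exp t * (Z : ℝ) ^ (-(1 / 3) : ℝ))) ≤ R / 100 := by
    have e1 : (Z : ℝ) ^ (-(1 / 3) : ℝ) ≤ Real.exp (-(κ * t / 6)) := by
      rw [Real.rpow_def_of_pos hZpos]
      apply Real.exp_le_exp.2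
      linarith
    calc d.totient * (C * (Real.exp t * (Z : ℝ) ^ (-(1 / 3) : ℝ)))
        ≤ Real.exp (κ / 8 * t) * (C * (Real.exp t * Real.exp (-(κ * t / 6)))) := by gcongr
      _ = (C * Real.exp (-(κ / 48 * t))) * (Real.exp (-(κ / 48 * t)) * Real.exp t) := by
          have : Real.exp (-(κ / 48 * t)) * Real.exp (-(κ / 48 * t))
              = Real.exp (κ / 8 * t) * Real.exp (-(κ * t / 6)) := by
            rw [← Real.exp_add, ← Real.exp_add]; congr 1; ring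
          linear_combination C * Real.exp t * (-this)
      _ ≤ c / 100 * (Real.exp (-(κ / 48 * t)) * Real.exp t) :=
          mul_le_mul_of_nonneg_right h1 (by positivity)
      _ = R / 100 := by rw [hR]; ring
  -- second error term
  have a2 : d.totient * (C * ((Z : ℝ) ^ 5 * (Real.exp t) ^ (19 / 20 : ℝ))) ≤ R / 100 := by
    have e1 : (Real.exp t) ^ (19 / 20 : ℝ) = Real.exp (19 / 20 * t) := by
      rw [← Real.exp_mul]; congr 1; ring
    have e2 : (Z : ℝ) ^ 5 ≤ Real.exp (5 * (κ * t)) := by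
      calc (Z : ℝ) ^ 5 ≤ (Real.exp (κ * t)) ^ 5 := by gcongr
        _ = Real.exp (5 * (κ * t)) := by rw [← Real.exp_nat_mul]; norm_num
    calc d.totient * (C * ((Z : ℝ) ^ 5 * (Real.exp t) ^ (19 / 20 : ℝ)))
        ≤ Real.exp (κ / 8 * t) * (C * (Real.exp (5 * (κ * t)) * Real.exp (19 / 20 * t))) := by
          rw [e1]; gcongr
      _ = C * Real.exp (κ / 8 * t + 5 * (κ * t) + 19 / 20 * t) := by
          rw [Real.exp_add, Real.exp_add]; ring
      _ ≤ C * (Real.exp (-(1 / 40 * t)) * Real.exp (-(κ / 48 * t) + t)) := by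
          apply mul_le_mul_of_nonneg_left _ hC
          apply key
          nlinarith
      _ = (C * Real.exp (-(1 / 40 * t))) * (Real.exp (-(κ / 48 * t)) * Real.exp t) := by
          rw [Real.exp_add]; ring
      _ ≤ c / 100 * (Real.exp (-(κ / 48 * t)) * Real.exp t) :=
          mul_le_mul_of_nonneg_right h2 (by positivity)
      _ = R / 100 := by rw [hR]; ring
  -- third error term
  have a3 : d.totient * (Real.log d * Real.log ⌊Real.exp t⌋₊ / Real.log 2) ≤ R / 100 := by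
    have hlog2 : 1 / 2 ≤ Real.log 2 := by linarith [Real.log_two_gt_d9]
    have hdr : (1 : ℝ) ≤ d := by exact_mod_cast hd
    have e1 : Real.log d ≤ t / 2400 := by
      have : Real.log d ≤ κ / 8 * t := by
        rw [← Real.log_exp (κ / 8 * t)]
        exact Real.log_le_log (by linarith) hdt
      linarith
    have e2 : Real.log ⌊Real.exp t⌋₊ ≤ t := by
      rw [← Real.log_exp t]
      have hY1 : 1 ≤ Real.exp t := Real.one_le_exp (by linarith)
      have : (1 : ℝ) ≤ ⌊Real.exp t⌋₊ := by exact_mod_cast Nat.le_floor (by simpa using hY1)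
      rw [Real.log_exp]
      conv_rhs => rw [← Real.log_exp t]
      exact Real.log_le_log (by linarith) (Nat.floor_le (Real.exp_pos t).le)
    have e3 : Real.log d * Real.log ⌊Real.exp t⌋₊ / Real.log 2 ≤ t ^ 2 := by
      rw [div_le_iff₀ (by linarith)]
      have e4 : 0 ≤ Real.log ⌊Real.exp t⌋₊ := Real.log_natCast_nonneg _
      calc Real.log d * Real.log ⌊Real.exp t⌋₊ ≤ (t / 2400) * t :=
            mul_le_mul e1 e2 e4 (by linarith)
        _ ≤ t ^ 2 * (1 / 2) := by nlinarith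
        _ ≤ t ^ 2 * Real.log 2 := by gcongr
    calc d.totient * (Real.log d * Real.log ⌊Real.exp t⌋₊ / Real.log 2)
        ≤ Real.exp (κ / 8 * t) * t ^ 2 := mul_le_mul hφ e3 (by
          have := Real.log_natCast_nonneg d
          have := Real.log_natCast_nonneg ⌊Real.exp t⌋₊
          positivity) (Real.exp_pos _).le
      _ ≤ (Real.exp (-(1 / 2 * t)) * Real.exp (-(κ / 48 * t) + t)) * t ^ 2 := by
          apply mul_le_mul_of_nonneg_right _ (by positivity)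
          apply key
          nlinarith
      _ = (t ^ 2 * Real.exp (-(1 / 2 * t))) * (Real.exp (-(κ / 48 * t)) * Real.exp t) := by
          rw [Real.exp_add]; ring
      _ ≤ c / 100 * (Real.exp (-(κ / 48 * t)) * Real.exp t) :=
          mul_le_mul_of_nonneg_right h3 (by positivity)
      _ = R / 100 := by rw [hR]; ring
  -- prime powers
  have a4 : d.totient * (2 * Real.exp (t / 2) * t) ≤ R / 100 := by
    calc d.totient * (2 * Real.exp (t / 2) * t)
        ≤ Real.exp (κ / 8 * t) * (2 * Real.exp (t / 2) * t) := by gcongr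
      _ = 2 * t * Real.exp (κ / 8 * t + t / 2) := by rw [Real.exp_add]; ring
      _ ≤ 2 * t * (Real.exp (-(1 / 4 * t)) * Real.exp (-(κ / 48 * t) + t)) := by
          apply mul_le_mul_of_nonneg_left _ (by positivity)
          apply key
          nlinarith
      _ = (2 * t * Real.exp (-(1 / 4 * t))) * (Real.exp (-(κ / 48 * t)) * Real.exp t) := by
          rw [Real.exp_add]; ring
      _ ≤ c / 100 * (Real.exp (-(κ / 48 * t)) * Real.exp t) :=
          mul_le_mul_of_nonneg_right h4 (by positivity)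
      _ = R / 100 := by rw [hR]; ring
  have a5 : 1 ≤ R / 100 := by
    calc (1 : ℝ) = Real.exp 0 := Real.exp_zero.symm
      _ ≤ Real.exp (-(1 / 2 * t)) * Real.exp (-(κ / 48 * t) + t) := by
          apply key
          nlinarith
      _ = Real.exp (-(1 / 2 * t)) * (Real.exp (-(κ / 48 * t)) * Real.exp t) := by
          rw [Real.exp_add]
      _ ≤ c / 100 * (Real.exp (-(κ / 48 * t)) * Real.exp t) :=
          mul_le_mul_of_nonneg_right h5 (by positivity)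
      _ = R / 100 := by rw [hR]; ring
  calc _ = 1 + d.totient * (C * (Real.exp t * (Z : ℝ) ^ (-(1 / 3) : ℝ)))
      + d.totient * (C * ((Z : ℝ) ^ 5 * (Real.exp t) ^ (19 / 20 : ℝ)))
      + d.totient * (Real.log d * Real.log ⌊Real.exp t⌋₊ / Real.log 2)
      + d.totient * (2 * Real.exp (t / 2) * t) := by ring
    _ ≤ _ := by linarith

/-- **Linnik's theorem**, logarithmic form -/
theorem linnik_exp : ∃ κ : ℝ, 0 < κ ∧ ∃ T : ℝ, ∀ t : ℝ, T ≤ t → ∀ d : ℕ, 1 ≤ d →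
    (d : ℝ) ≤ Real.exp (κ * t) → ∀ a : ZMod d, IsUnit a →
    ∃ p : ℕ, p.Prime ∧ (p : ℝ) ≤ Real.exp t ∧ (p : ZMod d) = a := by
  obtain ⟨κ1, hκ1, Z0, hzs⟩ := main_zs (1 / 100) (by norm_num)
  obtain ⟨C, hC, hef⟩ := main_ef
  obtain ⟨κ, hκ, hκa, hκb⟩ : ∃ κ : ℝ, 0 < κ ∧ κ ≤ κ1 ∧ κ ≤ 1 / 300 :=
    ⟨min κ1 (1 / 300), lt_min hκ1 (by norm_num), min_le_left _ _, min_le_right _ _⟩
  refine ⟨κ / 8, by positivity, ?_⟩
  obtain ⟨c0, hc0, hsieg⟩ := stmt_SIEG (1 / 48) (by norm_num)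
  obtain ⟨c, hc, hcc, hc1⟩ : ∃ c : ℝ, 0 < c ∧ c ≤ c0 ∧ c ≤ 1 :=
    ⟨min c0 1, lt_min hc0 one_pos, min_le_left _ _, min_le_right _ _⟩
  obtain ⟨T, hT⟩ := large' κ C (c / 100) (Z0 + ⌈C⌉₊ + 3) hκ (by positivity)
  refine ⟨T, fun t ht d hd hdt a ha => ?_⟩
  obtain ⟨t1, t2, t3, t4, t5, t6, t7, t8, t9, t10⟩ := hT t ht
  have ht0 : 0 < t := by linarith
  set Y := Real.exp t with hY
  have hY1 : 1 ≤ Y := Real.one_le_exp (by linarith)
  have hY0 : 0 < Y := by linarith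
  have hlogY : Real.log Y = t := Real.log_exp t
  set Z := ⌊Real.exp (κ * t)⌋₊ with hZd
  have hZM : Z0 + ⌈C⌉₊ + 3 ≤ Z := Nat.le_floor t3
  have hZ1 : (Z : ℝ) ≤ Real.exp (κ * t) := Nat.floor_le (Real.exp_pos _).le
  have hZ2 : Real.exp (κ * t) < Z + 1 := Nat.lt_floor_add_one _
  have hZr : (3 : ℝ) ≤ Z := by exact_mod_cast (by omega : 3 ≤ Z)
  have hZC : C ≤ Z := (Nat.le_ceil C).trans (by exact_mod_cast (by omega : ⌈C⌉₊ ≤ Z))
  have hZlog : κ * t / 2 ≤ Real.log Z := by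
    have e1 : Real.exp (κ * t / 2) ≤ Z := by
      have e2 : Real.exp (κ * t) = Real.exp (κ * t / 2) * Real.exp (κ * t / 2) := by
        rw [← Real.exp_add]; congr 1; ring
      have e3 : 2 ≤ Real.exp (κ * t / 2) := by
        have := Real.add_one_le_exp (κ * t / 2)
        linarith
      nlinarith
    calc κ * t / 2 = Real.log (Real.exp (κ * t / 2)) := (Real.log_exp _).symm
      _ ≤ Real.log Z := Real.log_le_log (Real.exp_pos _) e1
  have hYZ : Y ≤ Real.exp ((Real.log Z) ^ 2) := by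
    apply Real.exp_le_exp.2
    have e1 : 16 ≤ t * κ ^ 2 := by
      rwa [div_le_iff₀ (by positivity)] at t2
    have e2 : (κ * t / 2) ^ 2 ≤ (Real.log Z) ^ 2 := by
      have : 0 ≤ κ * t / 2 := by positivity
      gcongr
    nlinarith
  have hZY : (Z : ℝ) ≤ Y ^ κ1 := by
    rw [hY, ← Real.exp_mul]
    refine hZ1.trans (Real.exp_le_exp.2 ?_)
    rw [mul_comm]
    exact mul_le_mul_of_nonneg_left hκa ht0.le
  have hdZ : d ≤ Z := by
    apply Nat.le_floor
    refine hdt.trans (Real.exp_le_exp.2 ?_)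
    nlinarith
  -- the zeros
  obtain ⟨m, hm0, hm1, hm2, hW⟩ : ∃ m : ℝ, c * Real.exp (-(κ / 48 * t)) ≤ m ∧ m ≤ 1 ∧ 0 < m ∧
      ∑ x ∈ Fam Z, ‖((zl x Z).map (ZT Z Y)).sum‖ ≤ Y * (1 - 44 / 100 * m) := by
    rcases hzs Z (by omega) Y hY1 hZY with h | ⟨y, δ, hE, hδ, h⟩
    · refine ⟨1, ?_, le_rfl, one_pos, ?_⟩
      · have : Real.exp (-(κ / 48 * t)) ≤ 1 := Real.exp_le_one_iff.2 (by
          have : 0 ≤ κ / 48 * t := by positivity
          linarith)
        calc c * Real.exp (-(κ / 48 * t)) ≤ 1 * 1 :=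
              mul_le_mul hc1 this (Real.exp_pos _).le zero_le_one
          _ = 1 := one_mul 1
      · have h1 : ∀ x ∈ Fam Z, ‖((zl x Z).map (ZT Z Y)).sum‖ ≤ 5 * Y * zs (zl x Z) Y := by
          intro x hx
          refine zsum (zl x Z) (fun ρ hρ => ?_) Z Y (by linarith) hY1
          have h := (stmt_ZSPEC Z x (Fam_pos hx).1.ne').2.2 ρ hρ
          exact ⟨h.2.1, h.2.2.1.le⟩
        refine (sum_le_sum h1).trans ?_
        rw [← mul_sum]
        have : 5 * Y * ∑ x ∈ Fam Z, zs (zl x Z) Y ≤ 5 * Y * (1 / 100) := by gcongr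
        linarith
    · have hlogZ : 0 < κ * t / 2 := by positivity
      have hδ0 := hE.pos
      have hδ' : δ ≤ 1 / 2 := by
        refine hδ.trans ?_
        apply one_div_le_one_div_of_le (by norm_num)
        linarith
      have hy := Fam_pos hE.mem
      have hlow : c * Real.exp (-(κ / 48 * t)) ≤ δ := by
        have h1 := hsieg Z y δ hE
        have h2 : Real.exp (-(κ / 48 * t)) ≤ (y.1 : ℝ) ^ (-(1 / 48) : ℝ) := by
          have h3 : (y.1 : ℝ) ≤ Real.exp (κ * t) := (Nat.cast_le.2 hy.2).trans hZ1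
          have h4 : (Real.exp (κ * t)) ^ (-(1 / 48) : ℝ) ≤ (y.1 : ℝ) ^ (-(1 / 48) : ℝ) :=
            Real.rpow_le_rpow_of_nonpos (by exact_mod_cast hy.1) h3 (by norm_num)
          refine le_trans (le_of_eq ?_) h4
          rw [← Real.exp_mul]
          congr 1
          ring
        calc c * Real.exp (-(κ / 48 * t)) ≤ c0 * (y.1 : ℝ) ^ (-(1 / 48) : ℝ) :=
              mul_le_mul hcc h2 (Real.exp_pos _).le hc0.le
          _ ≤ δ := h1
      have hZδ : 1 / (2 * (Z : ℝ)) ≤ δ := by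
        refine le_trans ?_ hlow
        rw [div_le_iff₀ (by positivity)]
        have e1 : Real.exp (κ * t) ≤ 2 * Z := by linarith
        have e2 : 1 ≤ c * (Real.exp (-(κ / 48 * t)) * Real.exp (κ * t)) := by
          have e3 : Real.exp (κ / 2 * t) ≤ Real.exp (-(κ / 48 * t)) * Real.exp (κ * t) := by
            rw [← Real.exp_add]
            apply Real.exp_le_exp.2
            have : 0 ≤ κ * t := by positivity
            linarith
          have e4 : Real.exp (-(κ / 2 * t)) * Real.exp (κ / 2 * t) = 1 := by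
            rw [← Real.exp_add]
            simp
          have e5 : 1 ≤ c * Real.exp (κ / 2 * t) := by
            rw [← e4]
            apply mul_le_mul_of_nonneg_right _ (Real.exp_pos _).le
            linarith
          exact e5.trans (mul_le_mul_of_nonneg_left e3 hc.le)
        calc (1 : ℝ) ≤ c * (Real.exp (-(κ / 48 * t)) * Real.exp (κ * t)) := e2
          _ = c * Real.exp (-(κ / 48 * t)) * Real.exp (κ * t) := by ring
          _ ≤ c * Real.exp (-(κ / 48 * t)) * (2 * Z) := by gcongr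
      refine ⟨min 1 (δ * t), le_min ?_ ?_, min_le_left _ _, lt_min one_pos (by positivity), ?_⟩
      · refine hlow.trans ?_
        linarith
      · refine hlow.trans ?_
        nlinarith
      · refine (exc_sum Z Y δ y (by omega) hY1 hδ0 hδ' hE.mem).trans ?_
        rw [hlogY] at h ⊢
        set m := min 1 (δ * t) with hm
        have hm0 : 0 ≤ m := le_min zero_le_one (by positivity)
        have hm1 : m ≤ 1 := min_le_left _ _
        have e1 : 99 / 100 * m ≤ δ * t - 2 * δ - 1 / (2 * Z) := by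
          have e2 : m ≤ δ * t := min_le_right _ _
          nlinarith
        have e2 := exp_bound (δ * t - 2 * δ - 1 / (2 * Z)) m hm0 hm1 e1
        have e3 : -(δ * t - 2 * δ - 1 / (2 * (Z : ℝ))) = 1 / (2 * Z) + 2 * δ - δ * t := by ring
        rw [e3] at e2
        have e4 : 5 * Y * ∑ x ∈ Fam Z, zs (zx Z y δ x) Y ≤ 5 * Y * (1 / 100 * m) := by gcongr
        have e5 : Y * Real.exp (1 / (2 * Z) + 2 * δ - δ * t) ≤ Y * (1 - 49 / 100 * m) := by
          gcongr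
        linarith
  have h1 := core' d hd hdZ a ha Y hY1 _
    (fun x hx => hef Z hZC x hx 1 Y le_rfl hY1 hYZ) _ hW
  have h2 := num' κ C c t Z d hκ hκb (by linarith) hc (by linarith) t5 t6 t7 t8 t9 hd hdt hZ1
    (by omega) hZlog
  refine exists_prime d a t (by linarith) ?_
  have hφ : (0 : ℝ) < d.totient := by exact_mod_cast Nat.totient_pos.2 hd
  rw [← hY]
  have h3 : d.totient * (2 * Real.exp (t / 2) * t)
      < d.totient * ∑ n ∈ (Ioc 1 ⌊Y⌋₊).filter (fun n : ℕ => (n : ZMod d) = a), Λ n := by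
    refine lt_of_lt_of_le ?_ h1
    have h4 : c * Real.exp (-(κ / 48 * t)) * Y ≤ m * Y := by gcongr
    have h5 : 0 < m * Y := by positivity
    rw [← hY] at h2
    have h6 : d.totient *
      (C * (Y * (Z : ℝ) ^ (-(1 / 3) : ℝ) + (Z : ℝ) ^ 5 * Y ^ (19 / 20 : ℝ))
        + Real.log d * Real.log ⌊Y⌋₊ / Real.log 2 + 2 * Real.exp (t / 2) * t)
      = d.totient *
      (C * (Y * (Z : ℝ) ^ (-(1 / 3) : ℝ) + (Z : ℝ) ^ 5 * Y ^ (19 / 20 : ℝ))
        + Real.log d * Real.log ⌊Y⌋₊ / Real.log 2) + d.totient * (2 * Real.exp (t / 2) * t) := by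
      ring
    rw [h6] at h2
    linarith
  exact lt_of_mul_lt_mul_left h3 hφ.le

/-- **Linnik's theorem** -/
theorem linnik : ∃ L q0 : ℕ, 1 ≤ L ∧ ∀ q : ℕ, q0 ≤ q → ∀ a : ZMod q, IsUnit a →
    ∃ p : ℕ, p.Prime ∧ p ≤ q ^ L ∧ (p : ZMod q) = a := by
  obtain ⟨κ, hκ, T, hT⟩ := linnik_exp
  obtain ⟨q0, hq0⟩ := exists_nat_gt (Real.exp (κ * T))
  refine ⟨⌈1 / κ⌉₊ + 1, q0 + 1, by omega, fun q hq a ha => ?_⟩
  have hq1 : 1 ≤ q := by omega
  have hqr : (1 : ℝ) ≤ q := by exact_mod_cast hq1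
  have hqpos : (0 : ℝ) < q := by linarith
  have hlog : 0 ≤ Real.log q := Real.log_nonneg hqr
  have h1 : T ≤ Real.log q / κ := by
    rw [le_div_iff₀ hκ]
    have h2 : Real.exp (κ * T) ≤ q := hq0.le.trans (by exact_mod_cast (by omega : q0 ≤ q))
    have h3 := Real.log_le_log (Real.exp_pos _) h2
    rw [Real.log_exp] at h3
    linarith
  have h2 : (q : ℝ) ≤ Real.exp (κ * (Real.log q / κ)) := by
    rw [mul_div_cancel₀ _ hκ.ne', Real.exp_log hqpos]
  obtain ⟨p, hp, hpt, hpa⟩ := hT (Real.log q / κ) h1 q hq1 h2 a ha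
  refine ⟨p, hp, ?_, hpa⟩
  have h3 : Real.exp (Real.log q / κ) ≤ (q : ℝ) ^ (⌈1 / κ⌉₊ + 1) := by
    rw [← Real.exp_log (pow_pos hqpos (⌈1 / κ⌉₊ + 1)), Real.log_pow]
    apply Real.exp_le_exp.2
    have h4 : 1 / κ ≤ ⌈1 / κ⌉₊ := Nat.le_ceil _
    push_cast
    rw [div_eq_mul_one_div, mul_comm]
    apply mul_le_mul_of_nonneg_right _ hlog
    linarith
  exact_mod_cast hpt.trans h3

end Pool.Agent.Work.MP_113634_nt
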