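import Pool.Agent.Work.MP_113634_nt.Step2

/-!
# The termination times: induction
-/

set_option autoImplicit false

namespace Pool.Agent.Work.MP_113634_nt

open Finset
open Pool.Agent.PS
open scoped Classical

/-- many primes between `2^j` and `2^(j+4)` -/
theorem primes_card : ∃ j1 : ℕ, ∀ j : ℕ, j1 ≤ j →
    2 * ((2 : ℝ) ^ j / j) ≤ (((Ioc (2 ^ j) (2 ^ (j + 4))).filter Nat.Prime).card : ℝ) := by
  have hev : ∀ᶠ j : ℕ in Filter.atTop,
      ((j : ℝ) + 5) + 8 * (Real.sqrt 2) ^ j * ((j : ℝ) + 4) ≤ (1 / 2) * 2 ^ j := by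
    have e1 : Filter.Tendsto (fun j : ℕ => (j : ℝ) ^ 1 * (1 / 2 : ℝ) ^ j) Filter.atTop
        (nhds 0) := tendsto_pow_const_mul_const_pow_of_lt_one 1 (by norm_num) (by norm_num)
    have e2 : Filter.Tendsto (fun j : ℕ => (j : ℝ) ^ 1 * (Real.sqrt 2 / 2) ^ j) Filter.atTop
        (nhds 0) := by
      apply tendsto_pow_const_mul_const_pow_of_lt_one 1 (by positivity)
      rw [div_lt_one (by norm_num), Real.sqrt_lt' (by norm_num)]
      norm_num
    have e3 := (e1.eventually (gt_mem_nhds (by norm_num : (0 : ℝ) < 1 / 100))).and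
      ((e2.eventually (gt_mem_nhds (by norm_num : (0 : ℝ) < 1 / 100))).and
        (Filter.eventually_ge_atTop 5))
    refine e3.mono fun j hj => ?_
    obtain ⟨f1, f2, f3⟩ := hj
    have hj5 : (5 : ℝ) ≤ j := by exact_mod_cast f3
    rw [pow_one, div_pow, one_pow, mul_one_div, div_lt_iff₀ (by positivity)] at f1
    rw [pow_one, div_pow, mul_div_assoc', div_lt_iff₀ (by positivity)] at f2
    have h1 : (0 : ℝ) < (Real.sqrt 2) ^ j := by positivity
    nlinarith
  obtain ⟨j1, hj1⟩ := Filter.eventually_atTop.1 hev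
  refine ⟨max j1 16, fun j hj => ?_⟩
  have hja : j1 ≤ j := (le_max_left _ _).trans hj
  have hjb : 16 ≤ j := (le_max_right _ _).trans hj
  have hj0 : (16 : ℝ) ≤ j := by exact_mod_cast hjb
  have h0 := hj1 j hja
  set P := (Ioc (2 ^ j) (2 ^ (j + 4))).filter Nat.Prime with hP
  have hlog2 : 0.6931471803 < Real.log 2 := Real.log_two_gt_d9
  have hlog2' : Real.log 2 < 0.6931471808 := Real.log_two_lt_d9
  -- theta
  have h1 : Chebyshev.theta ((2 ^ (j + 4) : ℕ) : ℝ)
      = Chebyshev.theta ((2 ^ j : ℕ) : ℝ) + ∑ p ∈ P, Real.log p := by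
    unfold Chebyshev.theta
    rw [Nat.floor_natCast, Nat.floor_natCast, hP, ← sum_union]
    · congr 1
      ext p
      simp only [mem_union, mem_filter, mem_Ioc]
      have : 2 ^ j ≤ 2 ^ (j + 4) := Nat.pow_le_pow_right (by norm_num) (by omega)
      constructor
      · rintro ⟨⟨a1, a2⟩, a3⟩
        rcases le_or_gt p (2 ^ j) with h | h
        · exact Or.inl ⟨⟨a1, h⟩, a3⟩
        · exact Or.inr ⟨⟨h, a2⟩, a3⟩
      · rintro (⟨⟨a1, a2⟩, a3⟩ | ⟨⟨a1, a2⟩, a3⟩)
        · exact ⟨⟨a1, a2.trans this⟩, a3⟩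
        · exact ⟨⟨lt_of_le_of_lt (Nat.zero_le _) a1, a2⟩, a3⟩
    · rw [disjoint_left]
      intro p h2 h3
      rw [mem_filter, mem_Ioc] at h2 h3
      omega
  have h2 : ∑ p ∈ P, Real.log p ≤ P.card * (((j : ℝ) + 4) * Real.log 2) := by
    calc ∑ p ∈ P, Real.log p ≤ ∑ _p ∈ P, ((j : ℝ) + 4) * Real.log 2 := by
          refine sum_le_sum fun p hp => ?_
          rw [hP, mem_filter, mem_Ioc] at hp
          have e1 : (p : ℝ) ≤ (2 : ℝ) ^ (j + 4) := by exact_mod_cast hp.1.2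
          have e2 := Real.log_le_log (by exact_mod_cast hp.2.pos) e1
          rw [Real.log_pow] at e2
          push_cast at e2
          exact e2
      _ = _ := by rw [sum_const, nsmul_eq_mul]
  have h3 := Chebyshev.theta_ge (2 ^ (j + 4))
  have h4 := Chebyshev.theta_le_log4_mul_x (x := ((2 ^ j : ℕ) : ℝ)) (by positivity)
  have h5 : Real.log 4 = 2 * Real.log 2 := by
    have : (4 : ℝ) = 2 ^ 2 := by norm_num
    rw [this, Real.log_pow]
    norm_num
  have h6 : Real.log (((2 ^ (j + 4) : ℕ) : ℝ) + 1) ≤ ((j : ℝ) + 5) * Real.log 2 := by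
    have e1 : ((2 ^ (j + 4) : ℕ) : ℝ) + 1 ≤ (2 : ℝ) ^ (j + 5) := by
      push_cast
      have e2 : (1 : ℝ) ≤ 2 ^ (j + 4) := one_le_pow₀ (by norm_num)
      have e3 : (2 : ℝ) ^ (j + 5) = 2 * 2 ^ (j + 4) := by ring
      linarith
    have e2 := Real.log_le_log (by positivity) e1
    rw [Real.log_pow] at e2
    push_cast at e2
    push_cast
    exact e2
  have h7 : √((2 ^ (j + 4) : ℕ) : ℝ) = 4 * (Real.sqrt 2) ^ j := by
    push_cast
    rw [Real.sqrt_eq_iff_mul_self_eq (by positivity) (by positivity)]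
    have e1 : (Real.sqrt 2) ^ j * (Real.sqrt 2) ^ j = 2 ^ j := by
      rw [← mul_pow, Real.mul_self_sqrt (by norm_num)]
    symm
    calc 4 * (Real.sqrt 2) ^ j * (4 * (Real.sqrt 2) ^ j)
        = 16 * ((Real.sqrt 2) ^ j * (Real.sqrt 2) ^ j) := by ring
      _ = 2 ^ (j + 4) := by rw [e1]; ring
  have h8 : Real.log ((2 ^ (j + 4) : ℕ) : ℝ) = ((j : ℝ) + 4) * Real.log 2 := by
    push_cast
    rw [Real.log_pow]
    push_cast
    ring
  rw [h7, h8] at h3
  rw [h5] at h4
  have h9 : ((2 ^ (j + 4) : ℕ) : ℝ) = 16 * 2 ^ j := by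
    push_cast
    ring
  have h10 : ((2 ^ j : ℕ) : ℝ) = 2 ^ j := by push_cast; ring
  rw [h9] at h3 h1
  rw [h10] at h4 h1
  rw [h9] at h6
  have h11 : (13 : ℝ) * 2 ^ j * Real.log 2 ≤ P.card * (((j : ℝ) + 4) * Real.log 2) := by
    have e1 : ((j : ℝ) + 5) * Real.log 2 + 2 * (4 * (Real.sqrt 2) ^ j) * (((j : ℝ) + 4) * Real.log 2)
        ≤ (1 / 2) * 2 ^ j * Real.log 2 := by
      have := mul_le_mul_of_nonneg_right h0 (by linarith : (0 : ℝ) ≤ Real.log 2)
      calc _ = (((j : ℝ) + 5) + 8 * (Real.sqrt 2) ^ j * ((j : ℝ) + 4)) * Real.log 2 := by ring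
        _ ≤ _ := this
    have e2 : (0 : ℝ) ≤ 2 ^ j * Real.log 2 := by positivity
    linarith
  have h12 : (13 : ℝ) * 2 ^ j ≤ P.card * ((j : ℝ) + 4) := by
    have e1 : (13 : ℝ) * 2 ^ j * Real.log 2 ≤ (P.card * ((j : ℝ) + 4)) * Real.log 2 := by
      linarith
    exact le_of_mul_le_mul_right e1 (by linarith)
  have h13 : (13 : ℝ) * 2 ^ j ≤ P.card * (2 * (j : ℝ)) := by
    refine h12.trans ?_
    apply mul_le_mul_of_nonneg_left _ (Nat.cast_nonneg _)
    linarith
  rw [mul_div_assoc', div_le_iff₀ (by linarith)]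
  have h14 : (0 : ℝ) < 2 ^ j := by positivity
  linarith

/-- multiples -/
theorem multiples_card (a b r : ℕ) :
    (((Ioc a b).filter fun e => r ∣ e).card : ℝ) ≤ (b : ℝ) / r := by
  have h1 : ((Ioc a b).filter fun e => r ∣ e) ⊆ ((Ioc 0 b).filter fun e => r ∣ e) := by
    intro e he
    rw [mem_filter, mem_Ioc] at he ⊢
    exact ⟨⟨by omega, he.1.2⟩, he.2⟩
  have h2 : ((Ioc 0 b).filter fun e => r ∣ e).card = b / r := Nat.Ioc_filter_dvd_card_eq_div b r
  have h3 : (((Ioc a b).filter fun e => r ∣ e).card : ℝ) ≤ ((b / r : ℕ) : ℝ) := by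
    rw [← h2]
    exact_mod_cast card_le_card h1
  exact h3.trans Nat.cast_div_le

theorem base (r : ℕ → ℕ) (hr : Grows r) : ∃ j1 : ℕ, ∀ j : ℕ, j1 ≤ j →
    (2 : ℝ) ^ j / j ≤ (((Ioc (2 ^ j) (2 ^ (j + 4))).filter (El r 1)).card : ℝ) := by
  obtain ⟨j1, hj1⟩ := primes_card
  obtain ⟨X1, hX1⟩ := hr 2
  refine ⟨max j1 (X1 + 100000), fun j hj => ?_⟩
  have hja : j1 ≤ j := (le_max_left _ _).trans hj
  have hjb : X1 + 100000 ≤ j := (le_max_right _ _).trans hj
  have hj0 : (100000 : ℝ) ≤ j := by exact_mod_cast (by omega : 100000 ≤ j)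
  have h0 := hj1 j hja
  set P := (Ioc (2 ^ j) (2 ^ (j + 4))).filter Nat.Prime with hP
  set T := (Ioc (2 ^ j) (2 ^ (j + 4))).filter (El r 1) with hT
  set B := (Ioc (2 ^ j) (2 ^ (j + 4))).filter (fun e => ¬ Good r e) with hB
  have h1 : P.card ≤ T.card + B.card + 1 := by
    have e1 : (P.erase (2 ^ j + 1)).image (fun p => p - 1) ⊆ T ∪ B := by
      intro e he
      rw [mem_image] at he
      obtain ⟨p, hp, rfl⟩ := he
      rw [mem_erase, hP, mem_filter, mem_Ioc] at hp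
      obtain ⟨p1, ⟨p2, p3⟩, p4⟩ := hp
      have p5 : 2 ^ 1 ≤ 2 ^ j := Nat.pow_le_pow_right (by norm_num) (by omega)
      have p6 : p - 1 ∈ Ioc (2 ^ j) (2 ^ (j + 4)) := by
        rw [mem_Ioc]; omega
      rw [mem_union]
      by_cases hg : Good r (p - 1)
      · left
        rw [hT, mem_filter]
        refine ⟨p6, ?_, ?_, hg⟩
        · exact Nat.Odd.sub_odd (p4.odd_of_ne_two (by omega)) odd_one
        · rw [Nat.sub_add_cancel p4.one_le, Function.iterate_one]
          exact sstar_prime p4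
      · right
        rw [hB, mem_filter]
        exact ⟨p6, hg⟩
    have e2 := card_le_card e1
    rw [card_image_of_injOn] at e2
    · have e3 := card_union_le T B
      have e4 := pred_card_le_card_erase (s := P) (a := 2 ^ j + 1)
      omega
    · intro p hp q hq hpq
      rw [mem_coe, mem_erase, hP, mem_filter] at hp hq
      have := hp.2.2.pos
      have := hq.2.2.pos
      simp only at hpq
      omega
  have h2 : (B.card : ℝ) ≤ 105 * (256 * 2 ^ j / (j : ℝ) ^ 2) := by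
    have hsub : B ⊆ ((Ico (j - 3) (j + 4)) ×ˢ (Icc 1 15)).biUnion fun x =>
        (Ioc (2 ^ j) (2 ^ (j + 4))).filter fun e => r (Xw x.1 x.2) ∣ e := by
      intro e he
      rw [hB, mem_filter] at he
      obtain ⟨he1, he2⟩ := he
      unfold Good at he2
      push Not at he2
      obtain ⟨i, c, hc1, hc2, hi1, hi2, hi3⟩ := he2
      have he1' := he1
      rw [mem_Ioc] at he1'
      rw [mem_biUnion]
      refine ⟨(i, c), ?_, ?_⟩
      · rw [mem_product, mem_Ico, mem_Icc]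
        have e1 : 2 ^ i < 2 ^ (j + 4) := by
          have e2 : 2 ^ i ≤ c * 2 ^ i := Nat.le_mul_of_pos_left _ hc1
          omega
        have e4 : 2 ^ j < 2 ^ (i + 4) := by
          have e5 : (c + 1) * 2 ^ i ≤ 16 * 2 ^ i := Nat.mul_le_mul_right _ (by omega)
          have e6 : 2 ^ (i + 4) = 16 * 2 ^ i := by rw [pow_add]; ring
          omega
        have e8 := (Nat.pow_lt_pow_iff_right (by norm_num : 1 < 2)).1 e1
        have e9 := (Nat.pow_lt_pow_iff_right (by norm_num : 1 < 2)).1 e4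
        refine ⟨⟨by omega, e8⟩, hc1, hc2⟩
      · rw [mem_filter]
        exact ⟨he1, hi3⟩
    have hcard : (B.card : ℝ) ≤ ∑ x ∈ (Ico (j - 3) (j + 4)) ×ˢ (Icc 1 15),
        (((Ioc (2 ^ j) (2 ^ (j + 4))).filter fun e => r (Xw x.1 x.2) ∣ e).card : ℝ) := by
      exact_mod_cast (card_le_card hsub).trans card_biUnion_le
    refine hcard.trans ?_
    have hone : ∀ x ∈ (Ico (j - 3) (j + 4)) ×ˢ (Icc 1 15),
        (((Ioc (2 ^ j) (2 ^ (j + 4))).filter fun e => r (Xw x.1 x.2) ∣ e).card : ℝ)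
        ≤ 256 * 2 ^ j / (j : ℝ) ^ 2 := by
      intro x hx
      rw [mem_product, mem_Ico, mem_Icc] at hx
      have e1 : 2 ^ (x.1 - 4) ≤ Xw x.1 x.2 := Xw_ge x.1 x.2 hx.2.2 (by omega)
      have e2 := log_two_pow_ge _ _ e1
      have e3 : X1 ≤ Xw x.1 x.2 := by
        have : x.1 - 4 < 2 ^ (x.1 - 4) := Nat.lt_two_pow_self
        omega
      have e4 := hX1 _ e3
      have e5 : (j : ℝ) / 4 ≤ Real.log (Xw x.1 x.2) := by
        have : (j : ℝ) - 7 ≤ ((x.1 - 4 : ℕ) : ℝ) := by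
          have : j ≤ (x.1 - 4) + 7 := by omega
          have h : (j : ℝ) ≤ ((x.1 - 4 : ℕ) : ℝ) + 7 := by exact_mod_cast this
          linarith
        linarith
      have e6 : ((j : ℝ) / 4) ^ 2 ≤ r (Xw x.1 x.2) := by
        refine le_trans ?_ e4
        gcongr
      have e7 : (0 : ℝ) < r (Xw x.1 x.2) := lt_of_lt_of_le (by positivity) e6
      have e8 := multiples_card (2 ^ j) (2 ^ (j + 4)) (r (Xw x.1 x.2))
      refine e8.trans ?_
      rw [div_le_div_iff₀ e7 (by positivity)]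
      push_cast
      have e9 : (2 : ℝ) ^ (j + 4) = 16 * 2 ^ j := by ring
      rw [e9]
      have e10 : (0 : ℝ) < 2 ^ j := by positivity
      nlinarith
    refine (sum_le_sum hone).trans (le_of_eq ?_)
    rw [sum_const, card_product, Nat.card_Ico, Nat.card_Icc, nsmul_eq_mul]
    have : j + 4 - (j - 3) = 7 := by omega
    rw [this]
    norm_num
  have h3 : (P.card : ℝ) ≤ T.card + B.card + 1 := by exact_mod_cast h1
  have h4 : 105 * (256 * 2 ^ j / (j : ℝ) ^ 2) ≤ 1 / 2 * ((2 : ℝ) ^ j / j) := by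
    have : 105 * (256 * (2 : ℝ) ^ j / (j : ℝ) ^ 2) = (26880 / j) * ((2 : ℝ) ^ j / j) := by
      field_simp
      ring
    rw [this]
    apply mul_le_mul_of_nonneg_right _ (by positivity)
    rw [div_le_iff₀ (by linarith)]
    linarith
  have h5 : 1 ≤ 1 / 2 * ((2 : ℝ) ^ j / j) := by
    have e1 : (j : ℝ) * j ≤ 4 * 2 ^ j := by
      have e2 := Nat.lt_two_pow_self (n := j / 2 + 1)
      have e3 : j ≤ 2 * (j / 2) + 1 := by omega
      have e4 : j * j ≤ 4 * 2 ^ j := by
        have e5 : j ≤ 2 ^ (j / 2 + 1) := by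
          have e6 : ∀ m : ℕ, 4 ≤ m → 2 * m + 1 ≤ 2 ^ (m + 1) := by
            intro m hm
            induction m, hm using Nat.le_induction with
            | base => norm_num
            | succ m hm ih =>
              rw [pow_succ]
              omega
          have := e6 (j / 2) (by omega)
          omega
        calc j * j ≤ 2 ^ (j / 2 + 1) * 2 ^ (j / 2 + 1) := Nat.mul_le_mul e5 e5
          _ = 4 * 2 ^ (2 * (j / 2)) := by
            rw [← pow_add]
            have : (4 : ℕ) = 2 ^ 2 := by norm_num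
            rw [this, ← pow_add]
            congr 1
            ring
          _ ≤ 4 * 2 ^ j := by
            apply Nat.mul_le_mul_left
            exact Nat.pow_le_pow_right (by norm_num) (by omega)
      exact_mod_cast e4
    have e2 : (j : ℝ) / 4 ≤ 2 ^ j / j := by
      rw [div_le_div_iff₀ (by norm_num) (by linarith)]
      linarith
    linarith
  linarith

/-- the numbers for the induction -/
theorem big (C δ : ℝ) (hC : 1 ≤ C) (hδ : 0 < δ) : ∃ i2 : ℕ, ∀ i : ℕ, i2 ≤ i → ∀ k : ℕ, 2 ^ k ≤ i →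
    3840 * (C * i) ^ (2 * k - 1) ≤ (2 : ℝ) ^ ((i : ℝ) * δ) := by
  have hev : ∀ᶠ i : ℕ in Filter.atTop, Real.log 3840 + 4 * Real.log i * (Real.log C + Real.log i)
      ≤ (i : ℝ) * δ * Real.log 2 := by
    have e0 : Filter.Tendsto (fun x : ℝ => Real.log x ^ 2 / (1 * x + 0)) Filter.atTop (nhds 0) :=
      Real.tendsto_pow_log_div_mul_add_atTop 1 0 2 one_ne_zero
    have e1 := e0.comp tendsto_natCast_atTop_atTop
    have hl : Filter.Tendsto (fun x : ℕ => Real.log x) Filter.atTop Filter.atTop :=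
      Real.tendsto_log_atTop.comp tendsto_natCast_atTop_atTop
    have hd : 0 < δ * Real.log 2 / 16 := by positivity
    have e2 := (e1.eventually (gt_mem_nhds hd)).and ((hl.eventually_ge_atTop
      (Real.log C + Real.log 3840 + 1)).and (Filter.eventually_ge_atTop 1))
    refine e2.mono fun i hi => ?_
    obtain ⟨f1, f2, f3⟩ := hi
    have hi0 : (0 : ℝ) < i := by exact_mod_cast f3
    simp only [Function.comp, one_mul, add_zero] at f1
    rw [div_lt_iff₀ hi0] at f1
    have g1 : 0 ≤ Real.log C := Real.log_nonneg hC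
    have g2 : 0 ≤ Real.log 3840 := Real.log_nonneg (by norm_num)
    nlinarith
  obtain ⟨i2, hi2⟩ := Filter.eventually_atTop.1 hev
  refine ⟨max i2 1, fun i hi k hk => ?_⟩
  have hia := hi2 i ((le_max_left _ _).trans hi)
  have hi1 : 1 ≤ i := (le_max_right _ _).trans hi
  have hir : (1 : ℝ) ≤ i := by exact_mod_cast hi1
  have hCi : 1 ≤ C * i := by nlinarith
  have hk' : (k : ℝ) ≤ 2 * Real.log i := by
    have e1 : (2 : ℝ) ^ k ≤ i := by exact_mod_cast hk
    have e2 := Real.log_le_log (by positivity) e1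
    rw [Real.log_pow] at e2
    have e3 : (1 : ℝ) / 2 ≤ Real.log 2 := by linarith [Real.log_two_gt_d9]
    have e4 : (0 : ℝ) ≤ k := Nat.cast_nonneg _
    nlinarith
  have h1 : (C * i) ^ (2 * k - 1) ≤ (C * i) ^ (2 * k) := pow_le_pow_right₀ hCi (by omega)
  have h2 : (C * i) ^ (2 * k) = Real.exp (2 * k * (Real.log C + Real.log i)) := by
    rw [← Real.log_mul (by positivity) (by positivity), ← Real.exp_log (by positivity :
      (0 : ℝ) < (C * i) ^ (2 * k)), Real.log_pow]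
    push_cast
    rfl
  have h3 : 3840 * (C * (i : ℝ)) ^ (2 * k)
      = Real.exp (Real.log 3840 + 2 * k * (Real.log C + Real.log i)) := by
    rw [Real.exp_add, Real.exp_log (by norm_num), h2]
  have h4 : (2 : ℝ) ^ ((i : ℝ) * δ) = Real.exp (i * δ * Real.log 2) := by
    rw [Real.rpow_def_of_pos (by norm_num)]
    congr 1
    ring
  calc 3840 * (C * (i : ℝ)) ^ (2 * k - 1) ≤ 3840 * (C * (i : ℝ)) ^ (2 * k) := by gcongr
    _ = Real.exp (Real.log 3840 + 2 * k * (Real.log C + Real.log i)) := h3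
    _ ≤ Real.exp (i * δ * Real.log 2) := by
      apply Real.exp_le_exp.2
      refine le_trans ?_ hia
      have g1 : 0 ≤ Real.log C + Real.log i := by
        have := Real.log_nonneg hC
        have := Real.log_nonneg hir
        linarith
      nlinarith
    _ = _ := h4.symm

theorem induct : ∃ (r : ℕ → ℕ) (C : ℝ) (J : ℕ), 1 ≤ C ∧ ∀ k : ℕ, 1 ≤ k → ∀ j : ℕ, J * 2 ^ k ≤ j →
    (2 : ℝ) ^ j / (C * j) ^ (2 * k - 1)
      ≤ (((Ioc (2 ^ j) (2 ^ (j + 4))).filter (El r k)).card : ℝ) := by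
  obtain ⟨δ0, c, hδ0, hc, r, hgr, hwin⟩ := main_winb
  set δ := min δ0 1 with hδd
  have hδ : 0 < δ := lt_min hδ0 one_pos
  have hδ1 : δ ≤ 1 := min_le_right _ _
  have hδδ : δ ≤ δ0 := min_le_left _ _
  obtain ⟨X0, hX0⟩ := hwin 1 one_pos
  have hst := step r δ c hc hgr ⟨X0 + 1, fun X M hX hXM hM => ?_⟩ hδ1
  swap
  · have hX1 : (1 : ℝ) ≤ X := by exact_mod_cast (by omega : 1 ≤ X)
    refine le_trans ?_ ((hX0 X M (by omega) hXM hM).trans
      (Real.rpow_le_rpow_of_exponent_le hX1 (by linarith)))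
    have hsub : (Ioc M (M + X / 8)).filter (fun m => Even m ∧ ¬ r X ∣ m ∧
          ∑ a ∈ Ioc (X / 4) (X / 2), th a * th (m - a) < c * X)
        ⊆ (Ioc M (M + X / 8)).filter (fun m => Even m ∧
          (∑ a ∈ Ioc (X / 4) (X / 2), th a * th (m - a) < (X : ℝ) ^ (1 - (1 : ℝ)) ∨
          ¬ r X ∣ m ∧ ∑ a ∈ Ioc (X / 4) (X / 2), th a * th (m - a)
            < c * ((m : ℝ) / m.totient) * X)) := by
      intro m hm
      rw [mem_filter] at hm ⊢
      obtain ⟨m1, m2, m3, m4⟩ := hm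
      refine ⟨m1, m2, Or.inr ⟨m3, lt_of_lt_of_le m4 ?_⟩⟩
      rw [mem_Ioc] at m1
      have hm0 : 0 < m := by omega
      have h1 : (0 : ℝ) < m.totient := by exact_mod_cast Nat.totient_pos.2 hm0
      have h2 : (1 : ℝ) ≤ (m : ℝ) / m.totient := by
        rw [one_le_div h1]
        exact_mod_cast Nat.totient_le m
      calc c * (X : ℝ) = c * 1 * X := by ring
        _ ≤ c * ((m : ℝ) / m.totient) * X := by gcongr
    exact_mod_cast card_le_card hsub
  obtain ⟨c1, hc1, i0, hi0⟩ := hst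
  obtain ⟨j1, hj1⟩ := base r hgr
  obtain ⟨C, hC1, hCc⟩ : ∃ C : ℝ, 1 ≤ C ∧ 1 ≤ c1 * C := by
    refine ⟨max 1 (1 / c1), le_max_left _ _, ?_⟩
    calc (1 : ℝ) = c1 * (1 / c1) := by field_simp
      _ ≤ c1 * max 1 (1 / c1) := mul_le_mul_of_nonneg_left (le_max_right _ _) hc1.le
  obtain ⟨i2, hi2⟩ := big C δ hC1 hδ
  refine ⟨r, C, j1 + i0 + i2 + 10, hC1, ?_⟩
  set J := j1 + i0 + i2 + 10 with hJ
  intro k hk
  induction k, hk using Nat.le_induction with
  | base =>
    intro j hj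
    have hj' : j1 ≤ j := by omega
    have hjr : (0 : ℝ) < j := by exact_mod_cast (by omega : 0 < j)
    refine le_trans ?_ (hj1 j hj')
    have : 2 * 1 - 1 = 1 := rfl
    rw [this, pow_one]
    apply div_le_div_of_nonneg_left (by positivity) hjr
    nlinarith
  | succ k hk ih =>
    intro j hj
    obtain ⟨i, hia, hib, hic⟩ : ∃ i : ℕ, J * 2 ^ k ≤ i ∧ j ≤ 2 * i - 4 ∧ 2 * i - 1 ≤ j + 4 := by
      refine ⟨(j + 5) / 2, ?_, by omega, by omega⟩
      have : J * 2 ^ (k + 1) = 2 * (J * 2 ^ k) := by ring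
      omega
    have hk2 : 1 ≤ 2 ^ k := Nat.one_le_two_pow
    have hJi : J ≤ i := le_trans (Nat.le_mul_of_pos_right _ hk2) hia
    have h2k : 2 ^ k ≤ i := le_trans (Nat.le_mul_of_pos_left _ (by omega)) hia
    have hij : i ≤ j := by omega
    have hir : (0 : ℝ) < i := by exact_mod_cast (by omega : 0 < i)
    have hijr : (i : ℝ) ≤ j := by exact_mod_cast hij
    have h1 := hi0 i (by omega) k
    have h2 := ih i hia
    have h3 := hi2 i (by omega) k h2k
    set Q : ℝ := (C * i) ^ (2 * k - 1) with hQ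
    have hQ0 : 0 < Q := by positivity
    have h4 : 1920 * (2 : ℝ) ^ ((i : ℝ) * (1 - δ)) ≤ 1 / 2 * (2 ^ i / Q) := by
      have e1 : (2 : ℝ) ^ ((i : ℝ) * (1 - δ)) * (2 : ℝ) ^ ((i : ℝ) * δ) = 2 ^ i := by
        rw [← Real.rpow_add (by norm_num), ← Real.rpow_natCast]
        congr 1
        ring
      have e2 : (0 : ℝ) < (2 : ℝ) ^ ((i : ℝ) * (1 - δ)) := by positivity
      rw [← e1, mul_div_assoc', le_div_iff₀ hQ0]
      nlinarith
    have h5 : c1 * (1 / 2 * (2 ^ i / Q)) * (2 ^ i / (i : ℝ) ^ 2)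
        ≤ (((Ioc (2 ^ (2 * i - 4)) (2 ^ (2 * i - 1))).filter (El r (k + 1))).card : ℝ) := by
      refine le_trans ?_ h1
      apply mul_le_mul_of_nonneg_right _ (by positivity)
      apply mul_le_mul_of_nonneg_left _ hc1.le
      linarith
    have h6 : (((Ioc (2 ^ (2 * i - 4)) (2 ^ (2 * i - 1))).filter (El r (k + 1))).card : ℝ)
        ≤ (((Ioc (2 ^ j) (2 ^ (j + 4))).filter (El r (k + 1))).card : ℝ) := by
      have : (Ioc (2 ^ (2 * i - 4)) (2 ^ (2 * i - 1))).filter (El r (k + 1))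
          ⊆ (Ioc (2 ^ j) (2 ^ (j + 4))).filter (El r (k + 1)) := by
        apply filter_subset_filter
        apply Ioc_subset_Ioc
        · exact Nat.pow_le_pow_right (by norm_num) hib
        · exact Nat.pow_le_pow_right (by norm_num) hic
      exact_mod_cast card_le_card this
    refine le_trans ?_ (h5.trans h6)
    have e1 : 2 * (k + 1) - 1 = (2 * k - 1) + 2 := by omega
    rw [e1, pow_add]
    set R : ℝ := (C * j) ^ (2 * k - 1) with hR
    have hQR : Q ≤ R := by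
      rw [hQ, hR]
      gcongr
    have hR0 : 0 < R := lt_of_lt_of_le hQ0 hQR
    have hj0 : (0 : ℝ) < j := lt_of_lt_of_le hir hijr
    have e2 : (16 : ℝ) * 2 ^ j ≤ 2 ^ i * 2 ^ i := by
      have : 2 ^ (j + 4) ≤ 2 ^ (2 * i) := Nat.pow_le_pow_right (by norm_num) (by omega)
      have h : (2 : ℝ) ^ (j + 4) ≤ 2 ^ (2 * i) := by exact_mod_cast this
      calc (16 : ℝ) * 2 ^ j = 2 ^ (j + 4) := by ring
        _ ≤ 2 ^ (2 * i) := h
        _ = _ := by ring
    rw [div_le_iff₀ (by positivity)]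
    have e3 : c1 * (1 / 2 * (2 ^ i / Q)) * (2 ^ i / (i : ℝ) ^ 2) * (R * (C * j) ^ 2)
        = (2 ^ i * 2 ^ i) * ((c1 * C) * C / 2) * (R / Q) * ((j : ℝ) ^ 2 / (i : ℝ) ^ 2) := by
      field_simp
    rw [e3]
    have e4 : 1 ≤ R / Q := by rwa [one_le_div hQ0]
    have e5 : 1 ≤ (j : ℝ) ^ 2 / (i : ℝ) ^ 2 := by
      rw [one_le_div (by positivity)]
      gcongr
    have e6 : 1 ≤ c1 * C * C := by nlinarith
    have e7 : (0 : ℝ) < 2 ^ j := by positivity
    calc (2 : ℝ) ^ j ≤ (16 * 2 ^ j) * (1 / 2) * 1 * 1 := by linarith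
      _ ≤ (2 ^ i * 2 ^ i) * ((c1 * C) * C / 2) * (R / Q) * ((j : ℝ) ^ 2 / (i : ℝ) ^ 2) := by
        gcongr

/-- **the number of `n ≤ x` whose sequence reaches `1` after exactly `k` steps** -/
theorem termination : ∃ C : ℝ, 0 < C ∧ ∀ k : ℕ, 1 ≤ k → ∀ x : ℕ, C * 2 ^ k ≤ Real.log x →
    (x : ℝ) / (C * Real.log x) ^ (2 * k - 1)
      ≤ (((Icc 1 x).filter fun n => sstar^[k] n = 1 ∧ ∀ m < k, sstar^[m] n ≠ 1).card : ℝ) := by
  obtain ⟨r, C, J, hC, h⟩ := induct
  refine ⟨128 * C + J + 6, by positivity, fun k hk x hx => ?_⟩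
  have hJ0 : (0 : ℝ) ≤ J := Nat.cast_nonneg _
  have h2k : (1 : ℝ) ≤ 2 ^ k := one_le_pow₀ (by norm_num)
  have hlx : 134 ≤ Real.log x := by nlinarith
  have hx0 : x ≠ 0 := by
    rintro rfl
    simp at hlx
    linarith
  have hx1 : (0 : ℝ) < x := by exact_mod_cast Nat.pos_of_ne_zero hx0
  set u := Nat.log 2 x with hu
  have hu1 : 2 ^ u ≤ x := Nat.pow_log_le_self 2 hx0
  have hu2 : x < 2 ^ (u + 1) := Nat.lt_pow_succ_log_self (by norm_num) x
  have hlu : Real.log x ≤ u + 1 := by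
    have e1 : (x : ℝ) ≤ (2 : ℝ) ^ (u + 1) := by exact_mod_cast hu2.le
    have e2 := Real.log_le_log hx1 e1
    rw [Real.log_pow] at e2
    push_cast at e2
    have e3 : Real.log 2 ≤ 1 := by linarith [Real.log_two_lt_d9]
    have e4 : (0 : ℝ) ≤ (u : ℝ) + 1 := by positivity
    nlinarith
  have hul : (u : ℝ) ≤ 2 * Real.log x := by
    have e1 : (2 : ℝ) ^ u ≤ x := by exact_mod_cast hu1
    have e2 := Real.log_le_log (by positivity) e1
    rw [Real.log_pow] at e2
    have e3 : (1 : ℝ) / 2 ≤ Real.log 2 := by linarith [Real.log_two_gt_d9]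
    have e4 : (0 : ℝ) ≤ (u : ℝ) := Nat.cast_nonneg _
    nlinarith
  have hu3 : 5 ≤ u := by
    have : (5 : ℝ) ≤ u := by linarith
    exact_mod_cast this
  obtain ⟨j, hj⟩ : ∃ j, u = j + 5 := ⟨u - 5, by omega⟩
  have hjJ : J * 2 ^ k ≤ j := by
    have e1 : ((J * 2 ^ k : ℕ) : ℝ) ≤ (j : ℝ) := by
      have e2 : (u : ℝ) = j + 5 := by rw [hj]; push_cast; ring
      push_cast
      nlinarith
    exact_mod_cast e1
  have h1 := h k hk j hjJ
  have hj0 : (0 : ℝ) < j := by
    have e2 : (u : ℝ) = j + 5 := by rw [hj]; push_cast; ring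
    linarith
  refine le_trans ?_ (h1.trans ?_)
  · have e1 : (x : ℝ) ≤ 64 * 2 ^ j := by
      have e2 : x ≤ 2 ^ (j + 5 + 1) := by rw [← hj]; exact hu2.le
      have e3 : (x : ℝ) ≤ (2 : ℝ) ^ (j + 5 + 1) := by exact_mod_cast e2
      calc (x : ℝ) ≤ (2 : ℝ) ^ (j + 5 + 1) := e3
        _ = 64 * 2 ^ j := by ring
    have e4 : (j : ℝ) ≤ 2 * Real.log x := by
      have e2 : (u : ℝ) = j + 5 := by rw [hj]; push_cast; ring
      linarith
    have e5 : 64 * (C * j) ^ (2 * k - 1) ≤ ((128 * C + J + 6) * Real.log x) ^ (2 * k - 1) := by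
      have e6 : (64 : ℝ) ≤ 64 ^ (2 * k - 1) := by
        calc (64 : ℝ) = 64 ^ 1 := (pow_one _).symm
          _ ≤ 64 ^ (2 * k - 1) := pow_le_pow_right₀ (by norm_num) (by omega)
      calc 64 * (C * j) ^ (2 * k - 1) ≤ 64 ^ (2 * k - 1) * (C * j) ^ (2 * k - 1) := by gcongr
        _ = (64 * (C * j)) ^ (2 * k - 1) := (mul_pow _ _ _).symm
        _ ≤ _ := by
          apply pow_le_pow_left₀ (by positivity)
          nlinarith
    have e7 : 0 < (C * j) ^ (2 * k - 1) := by positivity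
    have e8 : 0 < ((128 * C + J + 6) * Real.log x) ^ (2 * k - 1) := lt_of_lt_of_le (by positivity) e5
    rw [div_le_div_iff₀ e8 e7]
    calc (x : ℝ) * (C * j) ^ (2 * k - 1) ≤ (64 * 2 ^ j) * (C * j) ^ (2 * k - 1) := by gcongr
      _ = 2 ^ j * (64 * (C * j) ^ (2 * k - 1)) := by ring
      _ ≤ _ := by gcongr
  · have e1 : ((Ioc (2 ^ j) (2 ^ (j + 4))).filter (El r k)).card
        ≤ ((Icc 1 x).filter fun n => sstar^[k] n = 1 ∧ ∀ m < k, sstar^[m] n ≠ 1).card := by
      apply card_le_card_of_injOn (fun e => e + 1)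
      · intro e he
        rw [mem_coe, mem_filter, mem_Ioc] at he
        rw [mem_coe, mem_filter, mem_Icc]
        have e2 : 2 ^ (j + 4) + 1 ≤ x := by
          have e3 : 2 ^ (j + 5) = 2 * 2 ^ (j + 4) := by ring
          have e4 : 1 ≤ 2 ^ (j + 4) := Nat.one_le_two_pow
          rw [hj] at hu1
          omega
        have e5 : 1 ≤ e + 1 ∧ e + 1 ≤ x := ⟨by omega, by omega⟩
        refine ⟨e5, he.2.2.1, fun m hm hm1 => ?_⟩
        have h3 := he.2.2.1
        obtain ⟨t, ht⟩ : ∃ t, k = t + 1 + m := ⟨k - m - 1, by omega⟩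
        rw [ht, Function.iterate_add_apply, hm1, Function.iterate_succ_apply] at h3
        have h4 : sstar 1 = 0 := by decide
        have h5 : sstar 0 = 0 := by decide
        have h6 : ∀ t : ℕ, sstar^[t] 0 = 0 := by
          intro t
          induction t with
          | zero => rfl
          | succ t ih => rw [Function.iterate_succ_apply, h5, ih]
        rw [h4, h6] at h3
        exact absurd h3 (by norm_num)
      · intro a _ b _ hab
        simp only at hab
        omega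
    exact_mod_cast e1

end Pool.Agent.Work.MP_113634_nt
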