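import Pool.Agent.Work.MP_113634_nt.Unitary

/-!
# Chains of protecting primes
-/

set_option autoImplicit false

namespace Pool.Agent.Work.MP_113634_nt

open Finset

/-- `M 0, M 1, ...`: `M (j + 1)` is a prime which protects `M j` -/
structure IsChain (M : ℕ → ℕ) : Prop where
  two : ∀ j, 2 ≤ M j
  prime : ∀ j, (M (j + 1)).Prime
  dvd : ∀ j, (M j) ^ 2 ∣ M (j + 1) + 1
  cop : ∀ i j, i < j → (M i).Coprime (M j)

/-- the product `M 0 ... M k` -/
def DD (M : ℕ → ℕ) (k : ℕ) : ℕ := ∏ j ∈ range (k + 1), M j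

theorem exists_chain (L q0 : ℕ) (hL : ∀ q, q0 ≤ q → ∃ p : ℕ, p.Prime ∧ p ≤ q ^ L ∧ q ∣ p + 1)
    (P : ℕ) (hP : 2 ≤ P) (hPq : q0 ≤ P) :
    ∃ M : ℕ → ℕ, IsChain M ∧ M 0 = P ∧ ∀ j, M j ≤ P ^ ((2 * L) ^ j) := by
  choose! f hf1 hf2 hf3 using hL
  obtain ⟨M, hM0, hM⟩ : ∃ M : ℕ → ℕ, M 0 = P ∧ ∀ j, M (j + 1) = f ((M j) ^ 2) :=
    ⟨fun j => Nat.rec P (fun _ m => f (m ^ 2)) j, rfl, fun _ => rfl⟩
  have h1 : ∀ j, 2 ≤ M j ∧ q0 ≤ M j := by
    intro j
    induction j with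
    | zero => rw [hM0]; exact ⟨hP, hPq⟩
    | succ j ih =>
      have h2 : q0 ≤ (M j) ^ 2 := ih.2.trans (Nat.le_self_pow two_ne_zero _)
      have h3 := Nat.le_of_dvd (Nat.succ_pos _) (hf3 _ h2)
      rw [← hM j] at h3
      have h4 : M j + M j ≤ (M j) ^ 2 := by nlinarith [ih.1]
      omega
  have h2 : ∀ j, q0 ≤ (M j) ^ 2 := fun j => (h1 j).2.trans (Nat.le_self_pow two_ne_zero _)
  have h3 : ∀ j, (M j) ^ 2 ∣ M (j + 1) + 1 := fun j => by rw [hM j]; exact hf3 _ (h2 j)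
  have h4 : ∀ j, M j < M (j + 1) := by
    intro j
    have h5 := Nat.le_of_dvd (Nat.succ_pos _) (h3 j)
    have h6 : M j + 2 ≤ (M j) ^ 2 := by nlinarith [(h1 j).1]
    omega
  have h5 : StrictMono M := strictMono_nat_of_lt_succ h4
  have h6 : ∀ j, (M (j + 1)).Prime := fun j => by rw [hM j]; exact hf1 _ (h2 j)
  refine ⟨M, ⟨fun j => (h1 j).1, h6, h3, fun i j hij => ?_⟩, hM0, ?_⟩
  · obtain ⟨k, rfl⟩ : ∃ k, j = k + 1 := ⟨j - 1, by omega⟩
    rw [Nat.coprime_comm, (h6 k).coprime_iff_not_dvd]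
    exact Nat.not_dvd_of_pos_of_lt (by have := (h1 i).1; omega) (h5 hij)
  · intro j
    induction j with
    | zero => simp [hM0]
    | succ j ih =>
      rw [hM j]
      calc f ((M j) ^ 2) ≤ ((M j) ^ 2) ^ L := hf2 _ (h2 j)
        _ = (M j) ^ (2 * L) := by rw [← pow_mul]
        _ ≤ (P ^ ((2 * L) ^ j)) ^ (2 * L) := Nat.pow_le_pow_left ih _
        _ = P ^ ((2 * L) ^ (j + 1)) := by rw [← pow_mul, pow_succ]

theorem UD.of_prod {M : ℕ → ℕ} (hM : IsChain M) {k a : ℕ} (h : UD (DD M k) a) {j : ℕ}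
    (hj : j ≤ k) : UD (M j) a := by
  have h1 : DD M k = M j * ∏ i ∈ (range (k + 1)).erase j, M i :=
    (mul_prod_erase (range (k + 1)) M (mem_range.2 (by omega))).symm
  rw [h1] at h
  refine h.of_mul (Nat.Coprime.prod_right fun i hi => ?_)
  rw [mem_erase] at hi
  rcases lt_or_gt_of_ne hi.1 with h2 | h2
  · exact (hM.cop _ _ h2).symm
  · exact hM.cop _ _ h2

theorem UD.chain_step {M : ℕ → ℕ} (hM : IsChain M) {k a : ℕ} (ha : 0 < a)
    (h : UD (DD M (k + 1)) a) : UD (DD M k) (sstar a) := by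
  have h1 : DD M (k + 1) = DD M k * M (k + 1) := prod_range_succ _ _
  have h2 : (DD M k).Coprime (M (k + 1)) := by
    refine Nat.Coprime.prod_left fun i hi => hM.cop _ _ ?_
    have := mem_range.1 hi
    omega
  have h3 : UD (DD M k) a := by
    rw [h1] at h
    exact h.of_mul h2
  refine h3.step ha ?_
  have h4 : (DD M k) ^ 2 = ∏ j ∈ range (k + 1), (M j) ^ 2 := (prod_pow _ _ _).symm
  rw [h4]
  refine Finset.prod_dvd_of_isRelPrime ?_ ?_
  · intro i _ j _ hij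
    show IsRelPrime _ _
    rw [← Nat.coprime_iff_isRelPrime]
    rcases lt_or_gt_of_ne hij with h5 | h5
    · exact Nat.Coprime.pow 2 2 (hM.cop _ _ h5)
    · exact Nat.Coprime.pow 2 2 (hM.cop _ _ h5).symm
  · intro j hj
    have hj' := mem_range.1 hj
    have h5 : UD (M (j + 1)) a := UD.of_prod hM h (by omega)
    obtain ⟨b, -, hb, -⟩ := h5.usum_eq ha
    rw [hb, usum_prime (hM.prime j)]
    exact (hM.dvd j).mul_right _

theorem sstar_pos {a : ℕ} (ha : 2 ≤ a) : 0 < sstar a := by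
  have h0 : 0 < a := by omega
  have h1 : 1 + a ≤ usum a := by
    unfold usum
    have h2 : ({1, a} : Finset ℕ) ⊆ a.divisors.filter (fun d => Nat.Coprime d (a / d)) := by
      intro x hx
      rw [mem_insert, mem_singleton] at hx
      rcases hx with rfl | rfl
      · rw [mem_filter, Nat.mem_divisors]
        exact ⟨⟨one_dvd _, h0.ne'⟩, Nat.coprime_one_left _⟩
      · exact self_mem h0
    calc 1 + a = ∑ d ∈ ({1, a} : Finset ℕ), d := by
          rw [sum_insert (by rw [mem_singleton]; omega), sum_singleton]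
      _ ≤ _ := sum_le_sum_of_subset h2
  have := sstar_add h0
  omega

/-- the chain keeps its structure -/
theorem chain_iter {M : ℕ → ℕ} (hM : IsChain M) (K n : ℕ) (hn : 0 < n) (h : UD (DD M K) n) :
    ∀ i, i ≤ K → 0 < sstar^[i] n ∧ UD (DD M (K - i)) (sstar^[i] n)
  | 0, _ => ⟨hn, h⟩
  | i + 1, hi => by
    obtain ⟨h1, h2⟩ := chain_iter hM K n hn h i (by omega)
    have h3 : K - i = (K - (i + 1)) + 1 := by omega
    rw [h3] at h2
    rw [Function.iterate_succ_apply']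
    refine ⟨sstar_pos ?_, UD.chain_step hM h1 h2⟩
    obtain ⟨b, hb, -⟩ := UD.of_prod hM h2 (Nat.zero_le _)
    have h4 := hM.two 0
    have h5 : 0 < b := Nat.pos_of_ne_zero (by rintro rfl; omega)
    rw [hb]
    nlinarith

/-- growth -/
theorem chain_growth {M : ℕ → ℕ} (hM : IsChain M) (K n : ℕ) (hn : 0 < n) (h : UD (DD M K) n)
    (i : ℕ) (hi : i ≤ K) :
    ((usum (M 0) : ℝ) / M 0 - 1) * (sstar^[i] n : ℕ) ≤ (sstar^[i + 1] n : ℕ) := by
  obtain ⟨h1, h2⟩ := chain_iter hM K n hn h i hi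
  have h3 := (UD.of_prod hM h2 (Nat.zero_le _)).growth h1
  rw [Function.iterate_succ_apply']
  have h4 := sstar_add h1
  have h5 : (0 : ℝ) < M 0 := by
    have := hM.two 0
    exact_mod_cast (by omega : 0 < M 0)
  have h6 : (usum (M 0) : ℝ) * (sstar^[i] n : ℕ) ≤ M 0 * (usum (sstar^[i] n) : ℕ) := by
    exact_mod_cast h3
  have h7 : (usum (M 0) : ℝ) / M 0 * (sstar^[i] n : ℕ) ≤ (usum (sstar^[i] n) : ℕ) := by
    rw [div_mul_eq_mul_div, div_le_iff₀ h5]
    linarith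
  have h8 : ((sstar (sstar^[i] n) : ℕ) : ℝ) + (sstar^[i] n : ℕ) = (usum (sstar^[i] n) : ℕ) := by
    exact_mod_cast h4
  linarith

/-! ## The primorial -/

theorem sum_inv_sq (N : ℕ) : ∑ b ∈ Icc 1 N, (1 : ℝ) / (b : ℝ) ^ 2 ≤ 2 := by
  have h : ∀ N : ℕ, 1 ≤ N → ∑ b ∈ Icc 1 N, (1 : ℝ) / (b : ℝ) ^ 2 ≤ 2 - 1 / N := by
    intro N hN
    induction N, hN using Nat.le_induction with
    | base => norm_num
    | succ N hN ih =>
      rw [sum_Icc_succ_top (by omega)]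
      have hN' : (1 : ℝ) ≤ N := by exact_mod_cast hN
      have h1 : (1 : ℝ) / ((N + 1 : ℕ) : ℝ) ^ 2 ≤ 1 / N - 1 / ((N + 1 : ℕ) : ℝ) := by
        push_cast
        rw [div_sub_div _ _ (by positivity) (by positivity), div_le_div_iff₀ (by positivity)
          (by positivity)]
        nlinarith
      linarith
  rcases Nat.eq_zero_or_pos N with rfl | hN
  · norm_num
  · have := h N hN
    have h2 : (0 : ℝ) ≤ 1 / N := by positivity
    linarith

theorem usum_primorial (y : ℕ) (hy : 1 ≤ y) :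
    Real.log y / 2 ≤ (usum (primorial y) : ℝ) / primorial y := by
  set P := primorial y with hP
  have hP0 : 0 < P := primorial_pos y
  have hsq : Squarefree P := by
    rw [hP]
    unfold primorial
    refine Finset.squarefree_prod_of_pairwise_isCoprime ?_ ?_
    · intro p hp q hq hpq
      have hp' := (mem_filter.1 (mem_coe.1 hp)).2
      have hq' := (mem_filter.1 (mem_coe.1 hq)).2
      show IsRelPrime p q
      rw [← Nat.coprime_iff_isRelPrime]
      exact (Nat.coprime_primes hp' hq').2 hpq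
    · intro p hp
      exact (mem_filter.1 hp).2.prime.squarefree
  have h1 : usum P = ∑ d ∈ P.divisors, d := by
    unfold usum
    congr 1
    refine filter_true_of_mem fun d hd => ?_
    have hd' := Nat.dvd_of_mem_divisors hd
    obtain ⟨e, he⟩ := hd'
    have hd0 : 0 < d := Nat.pos_of_mem_divisors hd
    rw [he, Nat.mul_div_cancel_left _ hd0]
    rw [he] at hsq
    exact Nat.coprime_of_squarefree_mul hsq
  have h2 : (usum P : ℝ) / P = ∑ d ∈ P.divisors, (1 : ℝ) / d := by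
    rw [h1, ← Nat.sum_div_divisors P (fun d => d)]
    push_cast
    rw [sum_div]
    refine sum_congr rfl fun d hd => ?_
    have hd0 : (0 : ℝ) < d := by exact_mod_cast Nat.pos_of_mem_divisors hd
    have hPr : (0 : ℝ) < P := by exact_mod_cast hP0
    rw [Nat.cast_div (Nat.dvd_of_mem_divisors hd) hd0.ne']
    field_simp
  rw [h2]
  have h3 : ∑ d ∈ (Icc 1 y).filter Squarefree, (1 : ℝ) / d ≤ ∑ d ∈ P.divisors, (1 : ℝ) / d := by
    refine sum_le_sum_of_subset_of_nonneg ?_ fun _ _ _ => by positivity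
    intro d hd
    rw [mem_filter, mem_Icc] at hd
    rw [Nat.mem_divisors]
    refine ⟨hd.2.dvd_primorial.trans (primorial_dvd_primorial hd.1.2), hP0.ne'⟩
  refine le_trans ?_ h3
  have h4 : ∑ n ∈ Icc 1 y, (1 : ℝ) / n
      ≤ (∑ d ∈ (Icc 1 y).filter Squarefree, (1 : ℝ) / d) * ∑ b ∈ Icc 1 y, (1 : ℝ) / (b : ℝ) ^ 2 := by
    have h5 : ∀ n : ℕ, ∃ p : ℕ × ℕ, 0 < n → 0 < p.1 ∧ 0 < p.2 ∧ p.2 ^ 2 * p.1 = n ∧
        Squarefree p.1 := by
      intro n
      by_cases hn : 0 < n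
      · obtain ⟨a, b, h1, h2, h3, h4⟩ := Nat.sq_mul_squarefree_of_pos hn
        exact ⟨(a, b), fun _ => ⟨h1, h2, h3, h4⟩⟩
      · exact ⟨(0, 0), fun h => absurd h hn⟩
    choose φ hφ using h5
    rw [sum_mul_sum, ← sum_product']
    have h6 : ∑ n ∈ Icc 1 y, (1 : ℝ) / n
        = ∑ p ∈ (Icc 1 y).image φ, (1 : ℝ) / p.1 * (1 / (p.2 : ℝ) ^ 2) := by
      rw [sum_image]
      · refine sum_congr rfl fun n hn => ?_
        obtain ⟨a1, a2, a3, -⟩ := hφ n (mem_Icc.1 hn).1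
        have a4 : (n : ℝ) = ((φ n).2 : ℝ) ^ 2 * (φ n).1 := by exact_mod_cast a3.symm
        rw [a4, one_div_mul_one_div, mul_comm]
      · intro n hn m hm hnm
        have a1 := (hφ n (mem_Icc.1 hn).1).2.2.1
        have a2 := (hφ m (mem_Icc.1 hm).1).2.2.1
        rw [← a1, ← a2, hnm]
    rw [h6]
    refine sum_le_sum_of_subset_of_nonneg ?_ fun _ _ _ => by positivity
    intro p hp
    rw [mem_image] at hp
    obtain ⟨n, hn, rfl⟩ := hp
    have hn' := mem_Icc.1 hn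
    obtain ⟨a1, a2, a3, a4⟩ := hφ n hn'.1
    rw [mem_product, mem_filter, mem_Icc, mem_Icc]
    refine ⟨⟨⟨a1, ?_⟩, a4⟩, a2, ?_⟩
    · calc (φ n).1 = 1 * (φ n).1 := (one_mul _).symm
        _ ≤ (φ n).2 ^ 2 * (φ n).1 := Nat.mul_le_mul_right _ (Nat.one_le_pow _ _ a2)
        _ ≤ y := by rw [a3]; exact hn'.2
    · calc (φ n).2 ≤ (φ n).2 ^ 2 := Nat.le_self_pow two_ne_zero _
        _ ≤ (φ n).2 ^ 2 * (φ n).1 := Nat.le_mul_of_pos_right _ a1
        _ ≤ y := by rw [a3]; exact hn'.2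
  have h5 := sum_inv_sq y
  have h6 : Real.log y ≤ ∑ n ∈ Icc 1 y, (1 : ℝ) / n := by
    have h7 := log_add_one_le_harmonic y
    have h8 : ((harmonic y : ℚ) : ℝ) = ∑ n ∈ Icc 1 y, (1 : ℝ) / n := by
      rw [harmonic_eq_sum_Icc]
      push_cast
      refine sum_congr rfl fun n _ => by rw [one_div]
    rw [← h8]
    refine le_trans ?_ h7
    apply Real.log_le_log (by exact_mod_cast hy)
    push_cast
    linarith
  have h7 : 0 ≤ ∑ d ∈ (Icc 1 y).filter Squarefree, (1 : ℝ) / d := sum_nonneg fun _ _ => by positivity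
  have h8 : (∑ d ∈ (Icc 1 y).filter Squarefree, (1 : ℝ) / d) * ∑ b ∈ Icc 1 y, (1 : ℝ) / (b : ℝ) ^ 2
      ≤ (∑ d ∈ (Icc 1 y).filter Squarefree, (1 : ℝ) / d) * 2 := mul_le_mul_of_nonneg_left h5 h7
  linarith

end Pool.Agent.Work.MP_113634_nt
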