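import Mathlib
import Pool.Agent.Work.MP_71a505_nt.Tau

/-!
# Solutions of `p (e - p) ≡ 1 (mod r)` in an interval
-/

set_option autoImplicit false

namespace Pool.Agent.Work.MP_113634_nt

open Finset

/-- numbers in an interval and a residue class -/
theorem card_class (a b g : ℕ) (hg : 0 < g) (v : ℤ) :
    (((Ioc a b).filter fun x : ℕ => (g : ℤ) ∣ (x : ℤ) - v).card : ℝ) ≤ (b : ℝ) / g + 1 := by
  have hg' : (g : ℤ) ≠ 0 := by exact_mod_cast hg.ne'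
  have h1 : ((Ioc a b).filter fun x : ℕ => (g : ℤ) ∣ (x : ℤ) - v)
      ⊆ (Ioc a b).filter (fun x : ℕ => x ≡ (v % g).toNat [MOD g]) := by
    intro x hx
    rw [mem_filter] at hx ⊢
    refine ⟨hx.1, ?_⟩
    have h2 : (((v % g).toNat : ℕ) : ℤ) = v % g := Int.toNat_of_nonneg (Int.emod_nonneg v hg')
    rw [← Int.natCast_modEq_iff, h2]
    have h3 : v % g ≡ (x : ℤ) [ZMOD g] := (Int.mod_modEq v g).trans (Int.modEq_iff_dvd.2 hx.2)
    exact h3.symm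
  have h2 := card_le_card h1
  have h3 := Nat.Ioc_filter_modEq_card a b hg ((v % g).toNat)
  have h4 : (((((Ioc a b).filter (fun x : ℕ => x ≡ (v % g).toNat [MOD g])).card : ℤ)) : ℝ)
      ≤ (b : ℝ) / g + 1 := by
    rw [h3, Int.cast_max]
    apply max_le
    · have hgq : (0 : ℚ) < g := by exact_mod_cast hg
      have e1 : ((⌊((b : ℚ) - ((v % g).toNat : ℕ)) / g⌋ : ℤ) : ℚ)
          ≤ ((b : ℚ) - ((v % g).toNat : ℕ)) / g := Int.floor_le _
      have e2 : ((a : ℚ) - ((v % g).toNat : ℕ)) / g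
          < ((⌊((a : ℚ) - ((v % g).toNat : ℕ)) / g⌋ : ℤ) : ℚ) + 1 := Int.lt_floor_add_one _
      have e3 : ((⌊((b : ℚ) - ((v % g).toNat : ℕ)) / g⌋ : ℤ) : ℚ)
          - ((⌊((a : ℚ) - ((v % g).toNat : ℕ)) / g⌋ : ℤ) : ℚ) ≤ (b : ℚ) / g + 1 := by
        have e4 : ((b : ℚ) - ((v % g).toNat : ℕ)) / g - ((a : ℚ) - ((v % g).toNat : ℕ)) / g
            = (b : ℚ) / g - a / g := by ring
        have e5 : (0 : ℚ) ≤ (a : ℚ) / g := by positivity
        linarith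
      have e6 := (Rat.cast_le (K := ℝ)).2 e3
      push_cast at e6 ⊢
      exact e6
    · rw [Int.cast_zero]
      positivity
  have h5 : (((Ioc a b).filter fun x : ℕ => (g : ℤ) ∣ (x : ℤ) - v).card : ℝ)
      ≤ (((Ioc a b).filter (fun x : ℕ => x ≡ (v % g).toNat [MOD g])).card : ℝ) := by
    exact_mod_cast h2
  refine h5.trans ?_
  exact_mod_cast h4

/-- the solutions of `p (e - p) ≡ 1 (mod r)` -/
theorem excl_card (a b e r : ℕ) (hr : 0 < r) :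
    (((Ioc a b).filter fun p : ℕ => (r : ℤ) ∣ (p : ℤ) * ((e : ℤ) - p) - 1).card : ℝ)
      ≤ 2 * r.divisors.card * ((b : ℝ) / √(r : ℝ) + 1) := by
  classical
  set B := (Ioc a b).filter fun p : ℕ => (r : ℤ) ∣ (p : ℤ) * ((e : ℤ) - p) - 1 with hB
  rcases B.eq_empty_or_nonempty with h | ⟨y, hy⟩
  · rw [h, card_empty, Nat.cast_zero]
    positivity
  rw [hB, mem_filter] at hy
  have hsub : B ⊆ (r.divisors.filter (fun g => r ≤ g ^ 2)).biUnion fun g =>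
      ((Ioc a b).filter fun x : ℕ => (g : ℤ) ∣ (x : ℤ) - (y : ℤ)) ∪
      ((Ioc a b).filter fun x : ℕ => (g : ℤ) ∣ (x : ℤ) - ((e : ℤ) - y)) := by
    intro x hx
    rw [hB, mem_filter] at hx
    have h1 : (r : ℤ) ∣ ((x : ℤ) - y) * ((x : ℤ) - ((e : ℤ) - y)) := by
      have h2 := dvd_sub hy.2 hx.2
      have h3 : (y : ℤ) * ((e : ℤ) - y) - 1 - ((x : ℤ) * ((e : ℤ) - x) - 1)
          = ((x : ℤ) - y) * ((x : ℤ) - ((e : ℤ) - y)) := by ring
      rwa [h3] at h2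
    obtain ⟨d1, d2, h2, h3, h4⟩ := exists_dvd_and_dvd_of_dvd_mul h1
    have h5 : r = d1.natAbs * d2.natAbs := by
      rw [← Int.natAbs_mul, ← h4, Int.natAbs_natCast]
    rw [mem_biUnion]
    rcases le_total d1.natAbs d2.natAbs with h6 | h6
    · refine ⟨d2.natAbs, ?_, ?_⟩
      · rw [mem_filter, Nat.mem_divisors]
        refine ⟨⟨⟨d1.natAbs, by rw [h5]; ring⟩, hr.ne'⟩, ?_⟩
        rw [h5, sq]
        exact Nat.mul_le_mul_right _ h6
      · rw [mem_union]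
        right
        rw [mem_filter]
        exact ⟨hx.1, Int.natAbs_dvd.2 h3⟩
    · refine ⟨d1.natAbs, ?_, ?_⟩
      · rw [mem_filter, Nat.mem_divisors]
        refine ⟨⟨⟨d2.natAbs, by rw [h5]⟩, hr.ne'⟩, ?_⟩
        rw [h5, sq]
        exact Nat.mul_le_mul_left _ h6
      · rw [mem_union]
        left
        rw [mem_filter]
        exact ⟨hx.1, Int.natAbs_dvd.2 h2⟩
  have h1 := (card_le_card hsub).trans card_biUnion_le
  have h2 : (B.card : ℝ) ≤ ∑ g ∈ r.divisors.filter (fun g => r ≤ g ^ 2),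
      (((((Ioc a b).filter fun x : ℕ => (g : ℤ) ∣ (x : ℤ) - (y : ℤ)) ∪
      ((Ioc a b).filter fun x : ℕ => (g : ℤ) ∣ (x : ℤ) - ((e : ℤ) - y))).card : ℕ) : ℝ) := by
    exact_mod_cast h1
  refine h2.trans ?_
  have hrr : (0 : ℝ) < r := by exact_mod_cast hr
  have hsq : 0 < √(r : ℝ) := Real.sqrt_pos.2 hrr
  have h3 : ∀ g ∈ r.divisors.filter (fun g => r ≤ g ^ 2),
      (((((Ioc a b).filter fun x : ℕ => (g : ℤ) ∣ (x : ℤ) - (y : ℤ)) ∪
      ((Ioc a b).filter fun x : ℕ => (g : ℤ) ∣ (x : ℤ) - ((e : ℤ) - y))).card : ℕ) : ℝ)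
      ≤ 2 * ((b : ℝ) / √(r : ℝ) + 1) := by
    intro g hg
    rw [mem_filter] at hg
    have hg0 : 0 < g := Nat.pos_of_mem_divisors hg.1
    have h4 : √(r : ℝ) ≤ g := by
      rw [Real.sqrt_le_left (by positivity)]
      exact_mod_cast hg.2
    have h5 : (b : ℝ) / g ≤ (b : ℝ) / √(r : ℝ) :=
      div_le_div_of_nonneg_left (by positivity) hsq h4
    have h6 := card_class a b g hg0 (y : ℤ)
    have h7 := card_class a b g hg0 ((e : ℤ) - y)
    have h8 : (((((Ioc a b).filter fun x : ℕ => (g : ℤ) ∣ (x : ℤ) - (y : ℤ)) ∪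
      ((Ioc a b).filter fun x : ℕ => (g : ℤ) ∣ (x : ℤ) - ((e : ℤ) - y))).card : ℕ) : ℝ)
      ≤ (((Ioc a b).filter fun x : ℕ => (g : ℤ) ∣ (x : ℤ) - (y : ℤ)).card : ℝ)
        + (((Ioc a b).filter fun x : ℕ => (g : ℤ) ∣ (x : ℤ) - ((e : ℤ) - y)).card : ℝ) := by
      exact_mod_cast card_union_le _ _
    linarith
  refine (sum_le_sum h3).trans ?_
  rw [sum_const, nsmul_eq_mul]
  have h4 : (((r.divisors.filter (fun g => r ≤ g ^ 2)).card : ℕ) : ℝ) ≤ r.divisors.card := by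
    exact_mod_cast card_filter_le _ _
  have h5 : 0 ≤ 2 * ((b : ℝ) / √(r : ℝ) + 1) := by positivity
  calc _ ≤ (r.divisors.card : ℝ) * (2 * ((b : ℝ) / √(r : ℝ) + 1)) :=
        mul_le_mul_of_nonneg_right h4 h5
    _ = _ := by ring

/-- the bound in the form used -/
theorem excl_bound : ∃ K : ℝ, 1 ≤ K ∧ ∀ a b e r : ℕ, 0 < r →
    (((Ioc a b).filter fun p : ℕ => (r : ℤ) ∣ (p : ℤ) * ((e : ℤ) - p) - 1).card : ℝ)
      ≤ K * ((b : ℝ) * (r : ℝ) ^ (-(1 / 4) : ℝ) + (r : ℝ) ^ (1 / 4 : ℝ)) := by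
  obtain ⟨C, hC, h⟩ := Work.MP_71a505_nt.tau_le (δ := 1 / 4) (by norm_num)
  refine ⟨2 * C, by linarith, fun a b e r hr => ?_⟩
  have h1 := excl_card a b e r hr
  have h2 := h r hr.ne'
  have hrr : (0 : ℝ) < r := by exact_mod_cast hr
  have hsq : 0 < √(r : ℝ) := Real.sqrt_pos.2 hrr
  refine h1.trans ?_
  have h3 : (r : ℝ) ^ (1 / 4 : ℝ) / √(r : ℝ) = (r : ℝ) ^ (-(1 / 4) : ℝ) := by
    rw [Real.sqrt_eq_rpow, ← Real.rpow_sub hrr]
    norm_num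
  calc 2 * (r.divisors.card : ℝ) * ((b : ℝ) / √(r : ℝ) + 1)
      ≤ 2 * (C * (r : ℝ) ^ (1 / 4 : ℝ)) * ((b : ℝ) / √(r : ℝ) + 1) := by gcongr
    _ = 2 * C * ((b : ℝ) * ((r : ℝ) ^ (1 / 4 : ℝ) / √(r : ℝ)) + (r : ℝ) ^ (1 / 4 : ℝ)) := by ring
    _ = _ := by rw [h3]

end Pool.Agent.Work.MP_113634_nt
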