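import Mathlib

/-!
# Unitary divisor sums
-/

set_option autoImplicit false

namespace Pool.Agent.Work.MP_113634_nt

/-- the sum of the unitary divisors of `N` -/
def usum (N : ℕ) : ℕ := ∑ d ∈ N.divisors.filter (fun d => Nat.Coprime d (N / d)), d

/-- the sum of the unitary divisors of `N` other than `N` -/
def sstar (N : ℕ) : ℕ := usum N - N

theorem self_mem {N : ℕ} (hN : 0 < N) :
    N ∈ N.divisors.filter (fun d => Nat.Coprime d (N / d)) := by
  rw [Finset.mem_filter, Nat.mem_divisors, Nat.div_self hN]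
  exact ⟨⟨dvd_rfl, hN.ne'⟩, Nat.coprime_one_right N⟩

theorem self_le_usum {N : ℕ} (hN : 0 < N) : N ≤ usum N :=
  Finset.single_le_sum (f := fun d => d) (fun _ _ => Nat.zero_le _) (self_mem hN)

theorem sstar_add {N : ℕ} (hN : 0 < N) : sstar N + N = usum N :=
  Nat.sub_add_cancel (self_le_usum hN)

theorem coprime_div_iff {m n a b : ℕ} (h : m.Coprime n) (ha : a ∣ m) (hb : b ∣ n) :
    Nat.Coprime (a * b) (m * n / (a * b)) ↔ Nat.Coprime a (m / a) ∧ Nat.Coprime b (n / b) := by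
  rw [Nat.mul_div_mul_comm ha hb, Nat.coprime_mul_iff_left, Nat.coprime_mul_iff_right,
    Nat.coprime_mul_iff_right]
  have h1 : Nat.Coprime a (n / b) :=
    (h.coprime_dvd_left ha).coprime_dvd_right (Nat.div_dvd_of_dvd hb)
  have h2 : Nat.Coprime b (m / a) :=
    (h.symm.coprime_dvd_left hb).coprime_dvd_right (Nat.div_dvd_of_dvd ha)
  tauto

theorem usum_mul {m n : ℕ} (hm : 0 < m) (hn : 0 < n) (h : m.Coprime n) :
    usum (m * n) = usum m * usum n := by
  unfold usum
  rw [Finset.sum_mul_sum, ← Finset.sum_product']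
  symm
  refine Finset.sum_bij (fun p _ => p.1 * p.2) ?_ ?_ ?_ ?_
  · rintro ⟨a, b⟩ hp
    rw [Finset.mem_product, Finset.mem_filter, Finset.mem_filter, Nat.mem_divisors,
      Nat.mem_divisors] at hp
    obtain ⟨⟨⟨h1, h2⟩, h3⟩, ⟨⟨h4, h5⟩, h6⟩⟩ := hp
    rw [Finset.mem_filter, Nat.mem_divisors]
    exact ⟨⟨mul_dvd_mul h1 h4, (Nat.mul_pos hm hn).ne'⟩, (coprime_div_iff h h1 h4).2 ⟨h3, h6⟩⟩
  · intro p hp q hq hpq
    have hp' : p ∈ (↑(m.divisors ×ˢ n.divisors) : Set (ℕ × ℕ)) := by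
      rw [Finset.mem_coe, Finset.mem_product]
      rw [Finset.mem_product] at hp
      exact ⟨(Finset.mem_filter.1 hp.1).1, (Finset.mem_filter.1 hp.2).1⟩
    have hq' : q ∈ (↑(m.divisors ×ˢ n.divisors) : Set (ℕ × ℕ)) := by
      rw [Finset.mem_coe, Finset.mem_product]
      rw [Finset.mem_product] at hq
      exact ⟨(Finset.mem_filter.1 hq.1).1, (Finset.mem_filter.1 hq.2).1⟩
    exact h.mul_injOn_divisors hp' hq' hpq
  · intro d hd
    rw [Finset.mem_filter, Nat.mem_divisors] at hd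
    obtain ⟨⟨hd1, -⟩, hd2⟩ := hd
    obtain ⟨a, b, ha, hb, rfl⟩ := (Nat.dvd_mul).1 hd1
    have h1 := (coprime_div_iff h ha hb).1 hd2
    refine ⟨(a, b), ?_, rfl⟩
    rw [Finset.mem_product, Finset.mem_filter, Finset.mem_filter, Nat.mem_divisors,
      Nat.mem_divisors]
    exact ⟨⟨⟨ha, hm.ne'⟩, h1.1⟩, ⟨⟨hb, hn.ne'⟩, h1.2⟩⟩
  · intro p _
    rfl

theorem usum_prime {p : ℕ} (hp : p.Prime) : usum p = p + 1 := by
  unfold usum
  rw [hp.divisors, Finset.filter_insert, Nat.div_one, if_pos (Nat.coprime_one_left p),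
    Finset.filter_singleton, Nat.div_self hp.pos, if_pos (Nat.coprime_one_right p),
    Finset.sum_insert, Finset.sum_singleton, add_comm]
  rw [Finset.mem_singleton]
  exact hp.one_lt.ne

theorem sstar_prime {p : ℕ} (hp : p.Prime) : sstar p = 1 := by
  have := sstar_add hp.pos
  rw [usum_prime hp] at this
  omega

/-- `D` is a unitary divisor of `a` -/
def UD (D a : ℕ) : Prop := ∃ b, a = D * b ∧ D.Coprime b

theorem UD.usum_eq {D a : ℕ} (h : UD D a) (ha : 0 < a) : ∃ b, a = D * b ∧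
    usum a = usum D * usum b ∧ D.Coprime b ∧ 0 < b := by
  obtain ⟨b, rfl, hb⟩ := h
  have hD : 0 < D := Nat.pos_of_mul_pos_right ha
  have hb0 : 0 < b := Nat.pos_of_mul_pos_left ha
  exact ⟨b, rfl, usum_mul hD hb0 hb, hb, hb0⟩

/-- the growth factor -/
theorem UD.growth {D a : ℕ} (h : UD D a) (ha : 0 < a) : usum D * a ≤ D * usum a := by
  obtain ⟨b, rfl, h1, -, hb⟩ := h.usum_eq ha
  rw [h1]
  have := Nat.mul_le_mul_left (D * usum D) (self_le_usum hb)
  calc usum D * (D * b) = D * usum D * b := by ring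
    _ ≤ D * usum D * usum b := this
    _ = D * (usum D * usum b) := by ring

theorem UD.of_mul {D E a : ℕ} (hDE : D.Coprime E) (h : UD (D * E) a) : UD D a := by
  obtain ⟨b, rfl, hb⟩ := h
  exact ⟨E * b, by ring, hDE.mul_right (Nat.Coprime.coprime_mul_right hb)⟩

/-- the basic step: if `D ^ 2` divides the unitary divisor sum, `D` stays a unitary divisor -/
theorem UD.step {D a : ℕ} (h : UD D a) (ha : 0 < a) (hD : D ^ 2 ∣ usum a) : UD D (sstar a) := by
  obtain ⟨b, rfl, hb⟩ := h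
  have hD0 : 0 < D := Nat.pos_of_mul_pos_right ha
  obtain ⟨s, hs⟩ := hD
  have h1 := sstar_add ha
  rw [hs] at h1
  have h2 : D * b ≤ D * (D * s) := by
    calc D * b ≤ sstar (D * b) + D * b := Nat.le_add_left _ _
      _ = D * (D * s) := by rw [h1]; ring
  have h3 : b ≤ D * s := Nat.le_of_mul_le_mul_left h2 hD0
  refine ⟨D * s - b, ?_, ?_⟩
  · rw [Nat.mul_sub]
    have : D ^ 2 * s = D * (D * s) := by ring
    omega
  · have h4 : Nat.Coprime D (D * s - b + b) ∨ True := Or.inr trivial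
    have h5 : Nat.gcd D (D * s - b) = 1 := by
      have h6 : Nat.gcd D (D * s - b) ∣ b := by
        have h7 : Nat.gcd D (D * s - b) ∣ D * s := (Nat.gcd_dvd_left _ _).mul_right s
        have h8 : Nat.gcd D (D * s - b) ∣ D * s - b := Nat.gcd_dvd_right _ _
        have h9 := (Nat.dvd_sub h7 h8)
        rwa [Nat.sub_sub_self h3] at h9
      have h10 : Nat.gcd D (D * s - b) ∣ Nat.gcd D b := Nat.dvd_gcd (Nat.gcd_dvd_left _ _) h6
      rw [hb.gcd_eq_one] at h10
      exact Nat.dvd_one.1 h10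
    exact h5

end Pool.Agent.Work.MP_113634_nt
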