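import Pool.Agent.Work.PS.MainB
import Pool.Agent.Work.MP_113634_nt.Excl
import Pool.Agent.Work.MP_113634_nt.Unitary

/-!
# The inductive step for the termination times
-/

set_option autoImplicit false

namespace Pool.Agent.Work.MP_113634_nt

open Finset
open Pool.Agent.PS
open scoped Classical

/-- the windows -/
def Xw (i b : ℕ) : ℕ := 2 ^ i / (b + 1)

/-- `e` is not divisible by the exceptional moduli of its windows -/
def Good (r : ℕ → ℕ) (e : ℕ) : Prop :=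
  ∀ i b : ℕ, 1 ≤ b → b ≤ 15 → b * 2 ^ i < e → e ≤ (b + 1) * 2 ^ i → ¬ r (Xw i b) ∣ e

/-- `e` is even, and the unitary aliquot sequence of `e + 1` is at `1` after `k` steps -/
def El (r : ℕ → ℕ) (k e : ℕ) : Prop := Even e ∧ sstar^[k] (e + 1) = 1 ∧ Good r e

theorem Xw_ge (i b : ℕ) (hb : b ≤ 15) (hi : 4 ≤ i) : 2 ^ (i - 4) ≤ Xw i b := by
  unfold Xw
  rw [Nat.le_div_iff_mul_le (by omega)]
  calc 2 ^ (i - 4) * (b + 1) ≤ 2 ^ (i - 4) * 2 ^ 4 := Nat.mul_le_mul_left _ (by omega)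
    _ = 2 ^ i := by rw [← pow_add]; congr 1; omega

theorem Xw_le (i b : ℕ) : Xw i b ≤ 2 ^ i := Nat.div_le_self _ _

/-- sizes -/
theorem sizes (Y b X p e : ℕ) (hb1 : 1 ≤ b) (hX : X = Y / (b + 1)) (hp1 : X / 4 < p)
    (hp2 : p ≤ X / 2) (he1 : b * Y < e) (he2 : e ≤ (b + 1) * Y) :
    X / 2 < e - p ∧ p + (e - p) = e ∧ 2 * (p * (e - p)) ≤ Y ^ 2 ∧ 3 * Y ^ 2 < 32 * (p * (e - p)) := by
  have h1 : (b + 1) * X ≤ Y := by rw [hX]; exact Nat.mul_div_le Y (b + 1)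
  have h2 : Y < (b + 1) * (X + 1) := by rw [hX]; exact Nat.lt_mul_div_succ Y (by omega)
  have h3 : X + 1 ≤ 4 * p := by omega
  have h4 : 2 * p ≤ X := by omega
  have hXY : X ≤ Y := by rw [hX]; exact Nat.div_le_self _ _
  have hYe : Y < e := lt_of_le_of_lt (Nat.le_mul_of_pos_left Y hb1) he1
  have h5 : Y < 4 * ((b + 1) * p) := by
    calc Y < (b + 1) * (X + 1) := h2
      _ ≤ (b + 1) * (4 * p) := Nat.mul_le_mul_left _ h3
      _ = _ := by ring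
  have h6 : 2 * ((b + 1) * p) ≤ Y := by
    calc 2 * ((b + 1) * p) = (b + 1) * (2 * p) := by ring
      _ ≤ (b + 1) * X := Nat.mul_le_mul_left _ h4
      _ ≤ Y := h1
  obtain ⟨q, hq⟩ : ∃ q, e = p + q := ⟨e - p, by omega⟩
  have hq' : e - p = q := by omega
  rw [hq']
  refine ⟨by omega, by omega, ?_, ?_⟩
  · have h7 : q ≤ (b + 1) * Y := by omega
    have h8 : (b + 1) * (2 * (p * q)) ≤ (b + 1) * Y ^ 2 := by
      calc (b + 1) * (2 * (p * q)) = (2 * ((b + 1) * p)) * q := by ring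
        _ ≤ Y * ((b + 1) * Y) := Nat.mul_le_mul h6 h7
        _ = _ := by ring
    exact Nat.le_of_mul_le_mul_left h8 (by omega)
  · zify at h5 h6 he1 he2 hb1 ⊢
    have hqe : (q : ℤ) = e - p := by rw [hq]; push_cast; ring
    have h7 : (2 * (b : ℤ) * (b + 1) - 1) * Y < 2 * ((b + 1) * q) := by
      rw [hqe]
      nlinarith
    have hY0 : (0 : ℤ) ≤ Y := Int.natCast_nonneg _
    have hp0 : (0 : ℤ) ≤ p := Int.natCast_nonneg _
    have h8 : (Y : ℤ) * ((2 * (b : ℤ) * (b + 1) - 1) * Y)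
        < (4 * ((b + 1) * p)) * (2 * ((b + 1) * q)) := by
      have h9 : 0 ≤ (2 * (b : ℤ) * (b + 1) - 1) * Y := by
        apply mul_nonneg _ hY0
        nlinarith
      exact mul_lt_mul'' h5 h7 hY0 h9
    have h10 : (3 : ℤ) * (b + 1) ^ 2 ≤ 4 * (2 * (b : ℤ) * (b + 1) - 1) := by nlinarith
    have h11 : (b + 1 : ℤ) ^ 2 * (3 * (Y : ℤ) ^ 2) < (b + 1 : ℤ) ^ 2 * (32 * (p * q)) := by
      have h12 : (b + 1 : ℤ) ^ 2 * (3 * (Y : ℤ) ^ 2)
          ≤ 4 * (2 * (b : ℤ) * (b + 1) - 1) * Y ^ 2 := by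
        have := mul_le_mul_of_nonneg_right h10 (sq_nonneg (Y : ℤ))
        linarith
      nlinarith
    exact lt_of_mul_lt_mul_left h11 (sq_nonneg _)

theorem sstar_mul_prime {p q : ℕ} (hp : p.Prime) (hq : q.Prime) (h : p < q) :
    sstar (p * q) = p + q + 1 := by
  unfold sstar
  rw [usum_mul hp.pos hq.pos ((Nat.coprime_primes hp hq).2 h.ne), usum_prime hp, usum_prime hq]
  have : (p + 1) * (q + 1) = p * q + (p + q + 1) := by ring
  rw [this, Nat.add_sub_cancel_left]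

/-- growth of the exceptional modulus -/
def Grows (r : ℕ → ℕ) : Prop := ∀ A : ℕ, ∃ X0 : ℕ, ∀ X : ℕ, X0 ≤ X → (Real.log X) ^ A ≤ r X

theorem log_two_pow_ge (i X : ℕ) (h : 2 ^ i ≤ X) : (i : ℝ) / 2 ≤ Real.log X := by
  have h1 : (2 : ℝ) ^ i ≤ X := by exact_mod_cast h
  have h2 := Real.log_le_log (by positivity) h1
  rw [Real.log_pow] at h2
  have h3 : (1 : ℝ) / 2 ≤ Real.log 2 := by linarith [Real.log_two_gt_d9]
  have h4 : (0 : ℝ) ≤ i := Nat.cast_nonneg _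
  nlinarith

/-- the bad primes `p` for one modulus -/
theorem excl_one (K : ℝ) (hK : 0 ≤ K) (h : ∀ a b e r : ℕ, 0 < r →
    (((Ioc a b).filter fun p : ℕ => (r : ℤ) ∣ (p : ℤ) * ((e : ℤ) - p) - 1).card : ℝ)
      ≤ K * ((b : ℝ) * (r : ℝ) ^ (-(1 / 4) : ℝ) + (r : ℝ) ^ (1 / 4 : ℝ)))
    (i : ℕ) (hi : 2 ≤ i) (a b e r : ℕ) (hb : b ≤ 2 ^ i) (hr : ((i : ℝ) / 2) ^ 16 ≤ r)
    (hn : ∀ p ∈ Ioc a b, 2 ≤ p * (e - p) ∧ p ≤ e ∧ p * (e - p) ≤ 2 ^ (2 * i)) :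
    (((Ioc a b).filter fun p : ℕ => r ∣ p * (e - p) - 1).card : ℝ)
      ≤ K * (16 * 2 ^ i / (i : ℝ) ^ 4 + (2 : ℝ) ^ ((i : ℝ) / 2)) := by
  have hi0 : (2 : ℝ) ≤ i := by exact_mod_cast hi
  have hr0 : (1 : ℝ) ≤ r := le_trans (one_le_pow₀ (by linarith)) hr
  have hr1 : 0 < r := by exact_mod_cast (by linarith : (0 : ℝ) < r)
  rcases lt_or_ge (2 ^ (2 * i)) r with hlt | hge
  · have : ((Ioc a b).filter fun p : ℕ => r ∣ p * (e - p) - 1) = ∅ := by
      rw [filter_eq_empty_iff]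
      intro p hp hd
      obtain ⟨h1, h2, h3⟩ := hn p hp
      have := Nat.le_of_dvd (by omega) hd
      omega
    rw [this, card_empty, Nat.cast_zero]
    positivity
  · have h1 : ((Ioc a b).filter fun p : ℕ => r ∣ p * (e - p) - 1)
        ⊆ (Ioc a b).filter fun p : ℕ => (r : ℤ) ∣ (p : ℤ) * ((e : ℤ) - p) - 1 := by
      intro p hp
      rw [mem_filter] at hp ⊢
      refine ⟨hp.1, ?_⟩
      obtain ⟨h1, h2, h3⟩ := hn p hp.1
      have h4 := Int.natCast_dvd_natCast.2 hp.2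
      rw [Nat.cast_sub (by omega), Nat.cast_mul, Nat.cast_sub h2, Nat.cast_one] at h4
      exact h4
    have h2 : (((Ioc a b).filter fun p : ℕ => r ∣ p * (e - p) - 1).card : ℝ)
        ≤ (((Ioc a b).filter fun p : ℕ => (r : ℤ) ∣ (p : ℤ) * ((e : ℤ) - p) - 1).card : ℝ) := by
      exact_mod_cast card_le_card h1
    refine h2.trans ((h a b e r hr1).trans ?_)
    have h3 : (r : ℝ) ^ (-(1 / 4) : ℝ) ≤ 16 / (i : ℝ) ^ 4 := by
      have h4 : (r : ℝ) ^ (-(1 / 4) : ℝ) ≤ (((i : ℝ) / 2) ^ 16) ^ (-(1 / 4) : ℝ) :=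
        Real.rpow_le_rpow_of_nonpos (by positivity) hr (by norm_num)
      refine h4.trans (le_of_eq ?_)
      rw [← Real.rpow_natCast, ← Real.rpow_mul (by positivity)]
      have : (((16 : ℕ) : ℝ) * -(1 / 4)) = -((4 : ℕ) : ℝ) := by norm_num
      rw [this, Real.rpow_neg (by positivity), Real.rpow_natCast, div_pow, inv_div]
      norm_num
    have h4 : (r : ℝ) ^ (1 / 4 : ℝ) ≤ (2 : ℝ) ^ ((i : ℝ) / 2) := by
      have h5 : (r : ℝ) ≤ (2 : ℝ) ^ (2 * i) := by exact_mod_cast hge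
      have h6 : (r : ℝ) ^ (1 / 4 : ℝ) ≤ ((2 : ℝ) ^ (2 * i)) ^ (1 / 4 : ℝ) :=
        Real.rpow_le_rpow (by positivity) h5 (by norm_num)
      refine h6.trans (le_of_eq ?_)
      rw [← Real.rpow_natCast, ← Real.rpow_mul (by norm_num)]
      congr 1
      push_cast
      ring
    have h5 : (b : ℝ) ≤ (2 : ℝ) ^ i := by exact_mod_cast hb
    calc K * ((b : ℝ) * (r : ℝ) ^ (-(1 / 4) : ℝ) + (r : ℝ) ^ (1 / 4 : ℝ))
        ≤ K * ((2 : ℝ) ^ i * (16 / (i : ℝ) ^ 4) + (2 : ℝ) ^ ((i : ℝ) / 2)) := by gcongr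
      _ = _ := by ring

/-- the number of primes `p` lost is small -/
theorem excl_sum (r : ℕ → ℕ) (hr : Grows r) (η : ℝ) (hη : 0 < η) : ∃ i0 : ℕ, ∀ i : ℕ, i0 ≤ i →
    ∀ b e : ℕ, 1 ≤ b → b ≤ 15 → b * 2 ^ i < e → e ≤ (b + 1) * 2 ^ i →
    (((Ioc (Xw i b / 4) (Xw i b / 2)).filter fun p => ¬ Good r (p * (e - p) - 1)).card : ℝ)
      ≤ η * 2 ^ i / (i : ℝ) ^ 2 := by
  obtain ⟨K, hK, hex⟩ := excl_bound
  obtain ⟨X1, hX1⟩ := hr 16
  have hev : ∀ᶠ i : ℕ in Filter.atTop,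
      90 * (K * (16 * 2 ^ i / (i : ℝ) ^ 4 + (2 : ℝ) ^ ((i : ℝ) / 2))) ≤ η * 2 ^ i / (i : ℝ) ^ 2 := by
    have e1 : Filter.Tendsto (fun i : ℕ => (1440 * K) * (1 / (i : ℝ)) ^ 2) Filter.atTop
        (nhds ((1440 * K) * 0 ^ 2)) :=
      ((tendsto_one_div_atTop_nhds_zero_nat (𝕜 := ℝ)).pow 2).const_mul _
    have e2 : Filter.Tendsto (fun i : ℕ => (90 * K) * ((i : ℝ) ^ 2 * (Real.sqrt 2 / 2) ^ i))
        Filter.atTop (nhds ((90 * K) * 0)) := by
      apply Filter.Tendsto.const_mul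
      apply tendsto_pow_const_mul_const_pow_of_lt_one 2 (by positivity)
      rw [div_lt_one (by norm_num)]
      rw [Real.sqrt_lt' (by norm_num)]
      norm_num
    rw [zero_pow two_ne_zero, mul_zero] at e1
    rw [mul_zero] at e2
    have e3 := (e1.eventually (gt_mem_nhds (half_pos hη))).and
      ((e2.eventually (gt_mem_nhds (half_pos hη))).and (Filter.eventually_ge_atTop 1))
    refine e3.mono fun i hi => ?_
    obtain ⟨f1, f2, f3⟩ := hi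
    have hi0 : (0 : ℝ) < i := by exact_mod_cast f3
    have f4 : (2 : ℝ) ^ ((i : ℝ) / 2) = (Real.sqrt 2 / 2) ^ i * 2 ^ i := by
      rw [← mul_pow, div_mul_cancel₀ _ (by norm_num : (2 : ℝ) ≠ 0), Real.sqrt_eq_rpow,
        ← Real.rpow_natCast, ← Real.rpow_mul (by norm_num)]
      congr 1
      ring
    rw [f4, le_div_iff₀ (by positivity)]
    have f5 : 90 * (K * (16 * 2 ^ i / (i : ℝ) ^ 4 + (Real.sqrt 2 / 2) ^ i * 2 ^ i)) * (i : ℝ) ^ 2
        = (1440 * K * (1 / (i : ℝ)) ^ 2 + 90 * K * ((i : ℝ) ^ 2 * (Real.sqrt 2 / 2) ^ i))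
          * 2 ^ i := by
      field_simp
      ring
    rw [f5]
    apply mul_le_mul_of_nonneg_right _ (by positivity)
    linarith
  obtain ⟨i1, hi1⟩ := Filter.eventually_atTop.1 hev
  refine ⟨max i1 (X1 + 12), fun i hi b e hb1 hb2 he1 he2 => ?_⟩
  have hia : i1 ≤ i := (le_max_left _ _).trans hi
  have hib : X1 + 12 ≤ i := (le_max_right _ _).trans hi
  refine le_trans ?_ (hi1 i hia)
  set X := Xw i b with hX
  have hsz : ∀ p ∈ Ioc (X / 4) (X / 2), X / 2 < e - p ∧ p + (e - p) = e ∧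
      2 * (p * (e - p)) ≤ (2 ^ i) ^ 2 ∧ 3 * (2 ^ i) ^ 2 < 32 * (p * (e - p)) := by
    intro p hp
    rw [mem_Ioc] at hp
    exact sizes (2 ^ i) b X p e hb1 rfl hp.1 hp.2 he1 he2
  have h4 : ∀ n : ℕ, 4 ≤ n → (2 : ℕ) ^ n = 16 * 2 ^ (n - 4) := by
    intro n hn
    have : (16 : ℕ) = 2 ^ 4 := by norm_num
    rw [this, ← pow_add]
    congr 1
    omega
  have hsub : ((Ioc (X / 4) (X / 2)).filter fun p => ¬ Good r (p * (e - p) - 1))
      ⊆ ((Ico (2 * i - 7) (2 * i - 1)) ×ˢ (Icc 1 15)).biUnion fun x =>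
        (Ioc (X / 4) (X / 2)).filter fun p => r (Xw x.1 x.2) ∣ p * (e - p) - 1 := by
    intro p hp
    rw [mem_filter] at hp
    obtain ⟨hp1, hp2⟩ := hp
    obtain ⟨s1, s2, s3, s4⟩ := hsz p hp1
    unfold Good at hp2
    push Not at hp2
    obtain ⟨j, c, hc1, hc2, hj1, hj2, hj3⟩ := hp2
    rw [mem_biUnion]
    refine ⟨(j, c), ?_, ?_⟩
    · rw [mem_product, mem_Ico, mem_Icc]
      have e1 : 2 ^ j < 2 ^ (2 * i - 1) := by
        have e2 : 2 ^ j ≤ c * 2 ^ j := Nat.le_mul_of_pos_left _ hc1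
        have e3 : (2 : ℕ) * 2 ^ (2 * i - 1) = (2 ^ i) ^ 2 := by
          rw [← pow_succ', ← pow_mul]
          congr 1
          omega
        omega
      have e4 : 2 ^ (2 * i - 8) < 2 ^ j := by
        have e5 : (c + 1) * 2 ^ j ≤ 16 * 2 ^ j := Nat.mul_le_mul_right _ (by omega)
        have e6 : (2 ^ i) ^ 2 = 16 * (16 * 2 ^ (2 * i - 8)) := by
          rw [← pow_mul, mul_comm i 2, h4 (2 * i) (by omega), h4 (2 * i - 4) (by omega)]
          have : 2 * i - 4 - 4 = 2 * i - 8 := by omega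
          rw [this]
        have e7 : 1 ≤ 2 ^ (2 * i - 8) := Nat.one_le_two_pow
        omega
      have e8 := (Nat.pow_lt_pow_iff_right (by norm_num : 1 < 2)).1 e1
      have e9 := (Nat.pow_lt_pow_iff_right (by norm_num : 1 < 2)).1 e4
      refine ⟨⟨by omega, e8⟩, hc1, hc2⟩
    · rw [mem_filter]
      exact ⟨hp1, hj3⟩
  have hcard := (card_le_card hsub).trans card_biUnion_le
  have hcard' : (((Ioc (X / 4) (X / 2)).filter fun p => ¬ Good r (p * (e - p) - 1)).card : ℝ)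
      ≤ ∑ x ∈ (Ico (2 * i - 7) (2 * i - 1)) ×ˢ (Icc 1 15),
        (((Ioc (X / 4) (X / 2)).filter fun p => r (Xw x.1 x.2) ∣ p * (e - p) - 1).card : ℝ) := by
    exact_mod_cast hcard
  refine hcard'.trans ?_
  have hone : ∀ x ∈ (Ico (2 * i - 7) (2 * i - 1)) ×ˢ (Icc 1 15),
      (((Ioc (X / 4) (X / 2)).filter fun p => r (Xw x.1 x.2) ∣ p * (e - p) - 1).card : ℝ)
      ≤ K * (16 * 2 ^ i / (i : ℝ) ^ 4 + (2 : ℝ) ^ ((i : ℝ) / 2)) := by
    intro x hx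
    rw [mem_product, mem_Ico, mem_Icc] at hx
    have e1 : 2 ^ (x.1 - 4) ≤ Xw x.1 x.2 := Xw_ge x.1 x.2 hx.2.2 (by omega)
    have e2 : 2 ^ i ≤ Xw x.1 x.2 :=
      (Nat.pow_le_pow_right (by norm_num) (by omega)).trans e1
    have e3 : X1 ≤ Xw x.1 x.2 := by
      have : i < 2 ^ i := Nat.lt_two_pow_self
      omega
    refine excl_one K (by linarith) hex i (by omega) _ _ e _ ?_ ?_ ?_
    · exact (Nat.div_le_self _ _).trans (Xw_le i b)
    · refine le_trans ?_ (hX1 _ e3)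
      have := log_two_pow_ge i _ e2
      gcongr
    · intro p hp
      obtain ⟨s1, s2, s3, s4⟩ := hsz p hp
      have e5 : (2 ^ i) ^ 2 = 2 ^ (2 * i) := by
        rw [← pow_mul, mul_comm]
      have e6 : 64 ≤ 2 ^ (2 * i) := by
        calc 64 = 2 ^ 6 := by norm_num
          _ ≤ 2 ^ (2 * i) := Nat.pow_le_pow_right (by norm_num) (by omega)
      rw [e5] at s3 s4
      refine ⟨by omega, by omega, by omega⟩
  refine (sum_le_sum hone).trans (le_of_eq ?_)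
  rw [sum_const, card_product, Nat.card_Ico, Nat.card_Icc, nsmul_eq_mul]
  have : 2 * i - 1 - (2 * i - 7) = 6 := by omega
  rw [this]
  norm_num

end Pool.Agent.Work.MP_113634_nt
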