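import Pool.Agent.Work.MP_113634_nt.Step

/-!
# The inductive step for the termination times (assembly)
-/

set_option autoImplicit false

namespace Pool.Agent.Work.MP_113634_nt

open Finset
open Pool.Agent.PS
open scoped Classical

/-- the primes `p` with `e - p` prime -/
noncomputable def PP (X e : ℕ) : Finset ℕ :=
  (Ioc (X / 4) (X / 2)).filter fun p => p.Prime ∧ (e - p).Prime

theorem PP_card (X e i : ℕ) (he : e ≤ 2 ^ (i + 4)) (hX : X / 2 ≤ e) (hX1 : 1 ≤ e) :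
    ∑ a ∈ Ioc (X / 4) (X / 2), th a * th (e - a) ≤ (PP X e).card * ((i : ℝ) + 4) ^ 2 := by
  have hlog : ∀ n : ℕ, n ≤ e → Real.log n ≤ (i : ℝ) + 4 := by
    intro n hn
    rcases Nat.eq_zero_or_pos n with h0 | h0
    · rw [h0, Nat.cast_zero, Real.log_zero]
      positivity
    · have h1 : (n : ℝ) ≤ (2 : ℝ) ^ (i + 4) := by exact_mod_cast hn.trans he
      have h2 := Real.log_le_log (by exact_mod_cast h0) h1
      rw [Real.log_pow] at h2
      have h3 : Real.log 2 ≤ 1 := by linarith [Real.log_two_lt_d9]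
      have h4 : (0 : ℝ) ≤ ((i + 4 : ℕ) : ℝ) := Nat.cast_nonneg _
      have h5 : ((i + 4 : ℕ) : ℝ) = i + 4 := by push_cast; ring
      nlinarith
  rw [PP, card_filter, Nat.cast_sum, sum_mul]
  refine sum_le_sum fun a ha => ?_
  rw [mem_Ioc] at ha
  by_cases h : a.Prime ∧ (e - a).Prime
  · rw [if_pos h, Nat.cast_one, one_mul]
    unfold th
    rw [if_pos h.1, if_pos h.2, sq]
    exact mul_le_mul (hlog a (by omega)) (hlog (e - a) (by omega)) (Real.log_natCast_nonneg _)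
      (by positivity)
  · rw [if_neg h, Nat.cast_zero, zero_mul]
    unfold th
    rw [not_and_or] at h
    rcases h with h | h
    · rw [if_neg h, zero_mul]
    · rw [if_neg h, mul_zero]

/-- the windows cover -/
theorem cover (i : ℕ) (hi : 11 ≤ i) (e : ℕ) (h1 : 2 ^ i < e) (h2 : e ≤ 2 ^ (i + 4)) :
    ∃ b l : ℕ, 1 ≤ b ∧ b ≤ 15 ∧ l < 128 ∧ b * 2 ^ i < e ∧ e ≤ (b + 1) * 2 ^ i ∧
      b * 2 ^ i + l * (Xw i b / 8) < e ∧ e ≤ b * 2 ^ i + l * (Xw i b / 8) + Xw i b / 8 := by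
  set Y := 2 ^ i with hY
  have hY0 : 0 < Y := Nat.two_pow_pos i
  have hY4 : 2 ^ (i + 4) = 16 * Y := by rw [pow_add]; ring
  set b := (e - 1) / Y with hb
  have hb1 : b * Y ≤ e - 1 := Nat.div_mul_le_self _ _
  have hb2 : e - 1 < (b + 1) * Y := by
    have := Nat.lt_mul_div_succ (e - 1) hY0
    rw [← hb] at this
    linarith
  have hbl : 1 ≤ b := by
    rw [hb, Nat.one_le_div_iff hY0]
    omega
  have hbu : b ≤ 15 := by
    by_contra hc
    push Not at hc
    have : 16 * Y ≤ b * Y := Nat.mul_le_mul_right _ hc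
    omega
  set h := Xw i b / 8 with hh
  have hh0 : Y ≤ 128 * h := by
    have e1 := Xw_ge i b hbu (by omega)
    have e2 : 2 ^ (i - 4) = 8 * 2 ^ (i - 7) := by
      have : (8 : ℕ) = 2 ^ 3 := by norm_num
      rw [this, ← pow_add]; congr 1; omega
    have e3 : Y = 128 * 2 ^ (i - 7) := by
      have : (128 : ℕ) = 2 ^ 7 := by norm_num
      rw [this, ← pow_add, hY]; congr 1; omega
    omega
  have hhpos : 0 < h := by omega
  refine ⟨b, (e - 1 - b * Y) / h, hbl, hbu, ?_, by omega, by omega, ?_, ?_⟩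
  · rw [Nat.div_lt_iff_lt_mul hhpos]
    have : (b + 1) * Y = b * Y + Y := by ring
    omega
  · change b * Y + (e - 1 - b * Y) / h * h < e
    have := Nat.div_mul_le_self (e - 1 - b * Y) h
    omega
  · change e ≤ b * Y + (e - 1 - b * Y) / h * h + h
    have := Nat.lt_mul_div_succ (e - 1 - b * Y) hhpos
    have e1 : h * ((e - 1 - b * Y) / h + 1) = (e - 1 - b * Y) / h * h + h := by ring
    omega

set_option maxRecDepth 20000 in
theorem step (r : ℕ → ℕ) (δ c : ℝ) (hc : 0 < c) (hr : Grows r)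
    (hwin : ∃ X0 : ℕ, ∀ X M : ℕ, X0 ≤ X → X ≤ M → (M : ℝ) ≤ X * (Real.log X) ^ 2 →
      (((Ioc M (M + X / 8)).filter (fun m => Even m ∧ ¬ r X ∣ m ∧
        ∑ a ∈ Ioc (X / 4) (X / 2), th a * th (m - a) < c * X)).card : ℝ)
      ≤ (X : ℝ) ^ (1 - δ)) (hδ1 : δ ≤ 1) :
    ∃ c1 : ℝ, 0 < c1 ∧ ∃ i0 : ℕ, ∀ i : ℕ, i0 ≤ i → ∀ k : ℕ,
      c1 * ((((Ioc (2 ^ i) (2 ^ (i + 4))).filter (El r k)).card : ℝ)
          - 1920 * (2 : ℝ) ^ ((i : ℝ) * (1 - δ))) * (2 ^ i / (i : ℝ) ^ 2)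
        ≤ (((Ioc (2 ^ (2 * i - 4)) (2 ^ (2 * i - 1))).filter (El r (k + 1))).card : ℝ) := by
  obtain ⟨X0, hX0⟩ := hwin
  obtain ⟨i1, hi1⟩ := excl_sum r hr (c / 1024) (by positivity)
  refine ⟨c / 1024 / 1920, by positivity, max i1 (X0 + 100), fun i hi k => ?_⟩
  have hia : i1 ≤ i := (le_max_left _ _).trans hi
  have hib : X0 + 100 ≤ i := (le_max_right _ _).trans hi
  have hi0 : (100 : ℝ) ≤ i := by exact_mod_cast (by omega : 100 ≤ i)
  set Y := 2 ^ i with hY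
  have hY0 : 0 < Y := Nat.two_pow_pos i
  set S := (Ioc Y (2 ^ (i + 4))).filter (El r k) with hS
  set W : ℕ × ℕ → Finset ℕ := fun x => S.filter fun e => x.1 * Y < e ∧ e ≤ (x.1 + 1) * Y ∧
      x.1 * Y + x.2 * (Xw i x.1 / 8) < e ∧ e ≤ x.1 * Y + x.2 * (Xw i x.1 / 8) + Xw i x.1 / 8
    with hW
  set I : Finset (ℕ × ℕ) := (Icc 1 15) ×ˢ (range 128) with hI
  have hIc : I.card = 1920 := by rw [hI, card_product, Nat.card_Icc, card_range]
  have hSsub : S ⊆ I.biUnion W := by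
    intro e he
    rw [hS, mem_filter, mem_Ioc] at he
    obtain ⟨b, l, b1, b2, b3, b4, b5, b6, b7⟩ := cover i (by omega) e he.1.1 he.1.2
    rw [mem_biUnion]
    refine ⟨(b, l), ?_, ?_⟩
    · rw [hI, mem_product, mem_Icc, mem_range]
      exact ⟨⟨b1, b2⟩, b3⟩
    · rw [hW, mem_filter, hS, mem_filter, mem_Ioc]
      exact ⟨he, b4, b5, b6, b7⟩
  have hne : I.Nonempty := ⟨(1, 0), by rw [hI, mem_product, mem_Icc, mem_range]; norm_num⟩
  -- pigeonhole
  obtain ⟨x, hxI, hx⟩ : ∃ x ∈ I, (S.card : ℝ) / 1920 ≤ ((W x).card : ℝ) := by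
    by_contra hcon
    push Not at hcon
    have h1 : (S.card : ℝ) ≤ ∑ x ∈ I, ((W x).card : ℝ) := by
      exact_mod_cast (card_le_card hSsub).trans card_biUnion_le
    have h2 := sum_lt_sum_of_nonempty hne hcon
    rw [sum_const, hIc, nsmul_eq_mul] at h2
    push_cast at h2
    linarith
  obtain ⟨b, l⟩ := x
  rw [hI, mem_product, mem_Icc, mem_range] at hxI
  obtain ⟨⟨hb1, hb2⟩, hl⟩ := hxI
  simp only at hb1 hb2 hl
  set X := Xw i b with hX
  set M := b * Y + l * (X / 8) with hM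
  have hX4 : 2 ^ (i - 4) ≤ X := Xw_ge i b hb2 (by omega)
  have hXle : X ≤ Y := Xw_le i b
  have hXbig : X0 + 96 ≤ X := by
    have : i - 4 < 2 ^ (i - 4) := Nat.lt_two_pow_self
    omega
  have h16 : Y = 16 * 2 ^ (i - 4) := by
    have : (16 : ℕ) = 2 ^ 4 := by norm_num
    rw [this, ← pow_add, hY]; congr 1; omega
  have hXr : (96 : ℝ) ≤ X := by exact_mod_cast (by omega : 96 ≤ X)
  have hlogX : 45 ≤ Real.log X := by
    have h1 := log_two_pow_ge (i - 4) X hX4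
    have h2 : ((i - 4 : ℕ) : ℝ) = i - 4 := by
      rw [Nat.cast_sub (by omega)]; norm_num
    rw [h2] at h1
    linarith
  have hXM : X ≤ M := by
    have : Y ≤ b * Y := Nat.le_mul_of_pos_left _ hb1
    omega
  have hMX : (M : ℝ) ≤ X * (Real.log X) ^ 2 := by
    have h1 : M ≤ 256 * X := by
      have e1 : b * Y ≤ 15 * Y := Nat.mul_le_mul_right _ hb2
      have e2 : l * (X / 8) ≤ 127 * (X / 8) := Nat.mul_le_mul_right _ (by omega)
      omega
    have h2 : (M : ℝ) ≤ 256 * X := by exact_mod_cast h1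
    have h3 : (256 : ℝ) ≤ (Real.log X) ^ 2 := by nlinarith
    nlinarith
  have hbad := hX0 X M (by omega) hXM hMX
  set Bad := (Ioc M (M + X / 8)).filter (fun m => Even m ∧ ¬ r X ∣ m ∧
        ∑ a ∈ Ioc (X / 4) (X / 2), th a * th (m - a) < c * X) with hBad
  set G := (W (b, l)) \ Bad with hG
  have hGc : (S.card : ℝ) / 1920 - (2 : ℝ) ^ ((i : ℝ) * (1 - δ)) ≤ G.card := by
    have h1 : (W (b, l)).card ≤ G.card + Bad.card := by
      rw [hG]
      have := le_card_sdiff Bad (W (b, l))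
      omega
    have h2 : ((W (b, l)).card : ℝ) ≤ G.card + Bad.card := by exact_mod_cast h1
    have h3 : (X : ℝ) ^ (1 - δ) ≤ (2 : ℝ) ^ ((i : ℝ) * (1 - δ)) := by
      rw [Real.rpow_mul (by norm_num), Real.rpow_natCast]
      apply Real.rpow_le_rpow (by positivity) _ (by linarith)
      exact_mod_cast hXle
    linarith
  -- the primes
  set P : ℕ → Finset ℕ := fun e => (PP X e).filter fun p => Good r (p * (e - p) - 1) with hP
  have hGmem : ∀ e ∈ G, El r k e ∧ b * Y < e ∧ e ≤ (b + 1) * Y ∧ e ≤ 2 ^ (i + 4) ∧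
      c * X ≤ ∑ a ∈ Ioc (X / 4) (X / 2), th a * th (e - a) := by
    intro e he
    rw [hG, mem_sdiff, hW, mem_filter, hS, mem_filter, mem_Ioc] at he
    obtain ⟨⟨⟨⟨e1, e2⟩, e3⟩, e4, e5, e6, e7⟩, e8⟩ := he
    refine ⟨e3, e4, e5, e2, ?_⟩
    by_contra hcon
    push Not at hcon
    apply e8
    rw [hBad, mem_filter, mem_Ioc]
    exact ⟨⟨e6, e7⟩, e3.1, e3.2.2 i b hb1 hb2 e4 e5, hcon⟩
  have hPc : ∀ e ∈ G, c / 1024 * (2 ^ i / (i : ℝ) ^ 2) ≤ ((P e).card : ℝ) := by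
    intro e he
    obtain ⟨g1, g2, g3, g4, g5⟩ := hGmem e he
    have hYe : Y < e := lt_of_le_of_lt (Nat.le_mul_of_pos_left Y hb1) g2
    have h1 := PP_card X e i g4 (by omega) (by omega)
    have h2 := hi1 i hia b e hb1 hb2 g2 g3
    have h3 : (PP X e).card ≤ (P e).card
        + ((Ioc (X / 4) (X / 2)).filter fun p => ¬ Good r (p * (e - p) - 1)).card := by
      rw [← card_filter_add_card_filter_not (s := PP X e) (fun p => Good r (p * (e - p) - 1))]
      apply Nat.add_le_add_left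
      apply card_le_card
      apply filter_subset_filter
      exact filter_subset _ _
    have h4 : ((PP X e).card : ℝ) ≤ (P e).card
        + ((Ioc (X / 4) (X / 2)).filter fun p => ¬ Good r (p * (e - p) - 1)).card := by
      exact_mod_cast h3
    have h5 : c * X / ((i : ℝ) + 4) ^ 2 ≤ (PP X e).card := by
      rw [div_le_iff₀ (by positivity)]
      exact g5.trans h1
    have h6 : c / 512 * (2 ^ i / (i : ℝ) ^ 2) ≤ c * X / ((i : ℝ) + 4) ^ 2 := by
      have h7 : (2 : ℝ) ^ i ≤ 16 * X := by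
        have : Y ≤ 16 * X := by omega
        have h8 : ((Y : ℕ) : ℝ) ≤ 16 * X := by exact_mod_cast this
        rw [hY] at h8
        push_cast at h8
        exact h8
      rw [le_div_iff₀ (by positivity)]
      have h8 : ((i : ℝ) + 4) ^ 2 ≤ 2 * (i : ℝ) ^ 2 := by nlinarith
      have h9 : (0 : ℝ) < (i : ℝ) ^ 2 := by positivity
      calc c / 512 * (2 ^ i / (i : ℝ) ^ 2) * ((i : ℝ) + 4) ^ 2
          ≤ c / 512 * (16 * X / (i : ℝ) ^ 2) * (2 * (i : ℝ) ^ 2) := by gcongr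
        _ = c * X * (1 / 16) := by field_simp; ring
        _ ≤ c * X * 1 := by
          apply mul_le_mul_of_nonneg_left (by norm_num) (by positivity)
        _ = c * X := mul_one _
    have h10 : c / 1024 * 2 ^ i / (i : ℝ) ^ 2 = c / 1024 * (2 ^ i / (i : ℝ) ^ 2) := by ring
    rw [h10] at h2
    linarith
  -- the map
  set T := (Ioc (2 ^ (2 * i - 4)) (2 ^ (2 * i - 1))).filter (El r (k + 1)) with hT
  have hmem : ∀ e ∈ G, ∀ p ∈ P e, p.Prime ∧ (e - p).Prime ∧ p ≤ X / 2 ∧ X / 2 < e - p ∧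
      p + (e - p) = e ∧ p * (e - p) - 1 ∈ T ∧ 2 ≤ p * (e - p) := by
    intro e he p hp
    obtain ⟨g1, g2, g3, g4, g5⟩ := hGmem e he
    rw [hP] at hp
    simp only [PP, mem_filter, mem_Ioc] at hp
    obtain ⟨⟨⟨p1, p2⟩, p3, p4⟩, p5⟩ := hp
    obtain ⟨s1, s2, s3, s4⟩ := sizes Y b X p e hb1 rfl p1 p2 g2 g3
    have e5 : Y ^ 2 = 2 ^ (2 * i) := by rw [hY, ← pow_mul, mul_comm]
    have e6 : (2 : ℕ) ^ (2 * i) = 2 * 2 ^ (2 * i - 1) := by
      rw [← pow_succ']; congr 1; omega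
    have e7 : (2 : ℕ) ^ (2 * i) = 16 * 2 ^ (2 * i - 4) := by
      have : (16 : ℕ) = 2 ^ 4 := by norm_num
      rw [this, ← pow_add]; congr 1; omega
    have e8 : 2 ^ 6 ≤ 2 ^ (2 * i - 4) := Nat.pow_le_pow_right (by norm_num) (by omega)
    have hp2 : 2 < p := by omega
    have hq2 : 2 < e - p := by omega
    refine ⟨p3, p4, p2, s1, s2, ?_, by omega⟩
    rw [hT, mem_filter, mem_Ioc]
    refine ⟨⟨by omega, by omega⟩, ?_, ?_, p5⟩
    · have o1 : Odd p := p3.odd_of_ne_two (by omega)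
      have o2 : Odd (e - p) := p4.odd_of_ne_two (by omega)
      exact Nat.Odd.sub_odd (o1.mul o2) odd_one
    · have h1 : p * (e - p) - 1 + 1 = p * (e - p) := Nat.sub_add_cancel (by omega)
      rw [h1, Function.iterate_succ_apply, sstar_mul_prime p3 p4 (by omega), s2]
      exact g1.2.1
  have hinj : (G.sigma P).card ≤ T.card := by
    apply card_le_card_of_injOn (fun x => x.2 * (x.1 - x.2) - 1)
    · intro x hx
      rw [mem_coe, mem_sigma] at hx
      exact (hmem x.1 hx.1 x.2 hx.2).2.2.2.2.2.1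
    · rintro ⟨e, p⟩ hx ⟨e', p'⟩ hx' hxx
      rw [mem_coe, mem_sigma] at hx hx'
      obtain ⟨a1, a2, a3, a4, a5, a6, a7⟩ := hmem e hx.1 p hx.2
      obtain ⟨b1, b2, b3, b4, b5, b6, b7⟩ := hmem e' hx'.1 p' hx'.2
      simp only at hxx
      have h1 : p * (e - p) = p' * (e' - p') := by omega
      have h2 : p ∣ p' * (e' - p') := ⟨e - p, h1.symm⟩
      have h3 : p = p' := by
        rcases (Nat.Prime.dvd_mul a1).1 h2 with h | h
        · exact (Nat.prime_dvd_prime_iff_eq a1 b1).1 h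
        · have := (Nat.prime_dvd_prime_iff_eq a1 b2).1 h
          omega
      subst h3
      have h4 : e - p = e' - p := Nat.eq_of_mul_eq_mul_left a1.pos h1
      have h5 : e = e' := by omega
      subst h5
      rfl
  have hfin : (G.card : ℝ) * (c / 1024 * (2 ^ i / (i : ℝ) ^ 2)) ≤ T.card := by
    calc (G.card : ℝ) * (c / 1024 * (2 ^ i / (i : ℝ) ^ 2))
        = ∑ _e ∈ G, c / 1024 * (2 ^ i / (i : ℝ) ^ 2) := by rw [sum_const, nsmul_eq_mul]
      _ ≤ ∑ e ∈ G, ((P e).card : ℝ) := sum_le_sum hPc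
      _ = ((G.sigma P).card : ℝ) := by rw [card_sigma]; push_cast; rfl
      _ ≤ T.card := by exact_mod_cast hinj
  refine le_trans ?_ hfin
  have hpos : 0 ≤ c / 1024 * (2 ^ i / (i : ℝ) ^ 2) := by positivity
  calc c / 1024 / 1920 * ((S.card : ℝ) - 1920 * (2 : ℝ) ^ ((i : ℝ) * (1 - δ)))
        * (2 ^ i / (i : ℝ) ^ 2)
      = ((S.card : ℝ) / 1920 - (2 : ℝ) ^ ((i : ℝ) * (1 - δ)))
        * (c / 1024 * (2 ^ i / (i : ℝ) ^ 2)) := by ring
    _ ≤ _ := mul_le_mul_of_nonneg_right hGc hpos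

end Pool.Agent.Work.MP_113634_nt
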